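import Pool.Agent.H403Z.MC.Mom

/-!
Non-degeneracy under the logarithmic moment condition, degeneracy without it.
-/

open MeasureTheory ProbabilityTheory Filter Topology Set Metric
open scoped ENNReal NNReal Real
open Pool.Agent.Results.MP_ab74d4_pr.ChaosConvergence

set_option linter.unusedSectionVars false

namespace Pool.Agent.H403Z.MC

variable {Ω : Type*} {mΩ : MeasurableSpace Ω} {P : Measure Ω} [IsProbabilityMeasure P]
  {ξ : ℕ → Ω → ℂ}

lemma IsCoeff.meas_prod (H : IsCoeff P ξ) (γ : ℝ) (s : Finset ℕ) :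
    Measurable fun a : Ω × S1 => ENNReal.ofReal (TT P ξ γ s a.1 a.2) :=
  (measurable_TT_comp (P := P) (ξ := ξ) γ s (g := fun a : Ω × S1 => a.1)
    (h := fun a : Ω × S1 => a.2) (fun k _ => (H.meas k).comp measurable_fst)
    measurable_snd).ennreal_ofReal

lemma IsCoeff.mean_nu (H : IsCoeff P ξ) (γ : ℝ) (s : Finset ℕ) (U : Set S1) :
    ∫⁻ ω, nu P ξ γ s U ω ∂P = ∫⁻ z in U, ∫⁻ ω, ENNReal.ofReal (TT P ξ γ s ω z) ∂P ∂arcLength := by
  unfold nu
  exact lintegral_lintegral_swap (H.meas_prod γ s).aemeasurable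

lemma lint_TT (γ : ℝ) (n : ℕ) (z : S1) :
    ∫⁻ ω, ENNReal.ofReal (TT P ξ γ (Finset.range n) ω z) ∂P =
      (∫⁻ ω, ENNReal.ofReal (Real.exp (∑ k ∈ Finset.range n,
        γ * yy k (tr k (ξ k ω)) ((z : ℂ) ^ (k + 1)))) ∂P) *
      ENNReal.ofReal (Real.exp (-(γ ^ 2 / 2 * VV (sig P ξ) n z))) := by
  rw [← lintegral_mul_const' _ _ ENNReal.ofReal_ne_top]
  congr 1
  funext ω
  rw [← ENNReal.ofReal_mul (Real.exp_pos _).le, ← Real.exp_add, TT_range, ← Finset.mul_sum]
  congr 2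

lemma IsCoeff.mean_lower (H : IsCoeff P ξ) (γ : ℝ) (hsum : Summable (tl P ξ)) :
    ∃ c : ℝ≥0∞, c ≠ 0 ∧ ∀ n, c ≤ ∫⁻ ω, nu P ξ γ (Finset.range n) (ball ptI (3 / 8)) ω ∂P := by
  refine ⟨ENNReal.ofReal (Real.exp (-∑' k, ee P ξ γ k)) * arcLength (ball ptI (3 / 8)),
    mul_ne_zero (by simpa using Real.exp_pos _) arc_ball_ne_zero, fun n => ?_⟩
  rw [H.mean_nu, ← setLIntegral_const]
  refine lintegral_mono fun z => ?_
  simp only
  rw [lint_TT]
  refine le_trans ?_ (mul_le_mul_left (H.lap_prod_lower (Finset.range n)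
    (fun k => (z : ℂ) ^ (k + 1)) (fun k => (norm_pow_S1 z _).le) γ hsum) _)
  rw [← ENNReal.ofReal_mul (Real.exp_pos _).le, ← Real.exp_add]
  apply le_of_eq
  congr 2
  unfold VV
  ring

lemma IsCoeff.not_ae_zero (H : IsCoeff P ξ) {γ : ℝ} (hγ : γ ^ 2 < 2) (hsum : Summable (tl P ξ)) :
    ¬ ∀ᵐ ω ∂P, Tendsto (fun n => nu P ξ γ (Finset.range n) (ball ptI (3 / 8)) ω) atTop (𝓝 0) := by
  intro hae
  obtain ⟨c, hc, hcle⟩ := H.mean_lower γ hsum
  obtain ⟨C, hC, hCle⟩ := H.moment hγ (p := 2) (by norm_num) le_rfl (η := 1) one_pos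
  set C' := C * ENNReal.ofReal (((8 : ℕ) : ℝ) ^ (γ ^ 2 * ((2 : ℝ) ^ 2 - 2) / 4 - 2)) with hC'
  have hC't : C' ≠ ⊤ := ENNReal.mul_ne_top hC ENNReal.ofReal_ne_top
  have h1 : ∀ n, 8 ≤ n →
      ∫⁻ ω, nu P ξ γ (Finset.range n) (ball ptI (3 / 8)) ω ^ (2 : ℝ) ∂P ≤ C' := by
    intro n hn
    have := hCle 8 (by norm_num) (by norm_num) ptI (by rw [ptI_im]; simp) n hn
    rw [show (3 : ℝ) / ((8 : ℕ) : ℝ) = 3 / 8 by norm_num] at this
    exact this
  have h2 : Tendsto (fun L : ℕ => C' * (L : ℝ≥0∞)⁻¹) atTop (𝓝 0) := by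
    simpa using ENNReal.Tendsto.const_mul ENNReal.tendsto_inv_nat_nhds_zero (Or.inr hC't)
  obtain ⟨L, hL1, hL2⟩ := ((h2.eventually (gt_mem_nhds (pos_iff_ne_zero.2 hc))).and
    (eventually_ge_atTop 1)).exists
  have hL0 : (L : ℝ≥0∞) ≠ 0 := by exact_mod_cast (show L ≠ 0 by omega)
  have hLt : (L : ℝ≥0∞) ≠ ⊤ := ENNReal.natCast_ne_top L
  have hm : ∀ n, Measurable (nu P ξ γ (Finset.range n) (ball ptI (3 / 8))) := fun n =>
    measurable_nu γ _ _ fun k _ => H.meas k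
  have h3 : Tendsto (fun n => ∫⁻ ω, min (nu P ξ γ (Finset.range n) (ball ptI (3 / 8)) ω) L ∂P)
      atTop (𝓝 (∫⁻ _ω, 0 ∂P)) := by
    refine tendsto_lintegral_of_dominated_convergence (fun _ => (L : ℝ≥0∞))
      (fun n => (hm n).min measurable_const) (fun n => ae_of_all _ fun ω => min_le_right _ _)
      (by simp) ?_
    filter_upwards [hae] with ω hω
    exact tendsto_of_tendsto_of_tendsto_of_le_of_le tendsto_const_nhds hω (fun _ => zero_le)
      (fun n => min_le_left _ _)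
  rw [lintegral_zero] at h3
  have h4 : c ≤ 0 + C' * (L : ℝ≥0∞)⁻¹ := by
    refine ge_of_tendsto (h3.add_const (C' * (L : ℝ≥0∞)⁻¹)) ?_
    filter_upwards [eventually_ge_atTop 8] with n hn
    refine (hcle n).trans ?_
    refine le_trans ?_ (add_le_add_right (mul_le_mul_left (h1 n hn) _) _)
    rw [← lintegral_mul_const _ ((hm n).pow_const _),
      ← lintegral_add_left ((hm n).min measurable_const)]
    refine lintegral_mono fun ω => ?_
    simp only
    set x := nu P ξ γ (Finset.range n) (ball ptI (3 / 8)) ω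
    rcases le_total x L with h | h
    · rw [min_eq_left h]; exact le_self_add
    · refine le_trans ?_ le_add_self
      rw [ENNReal.rpow_two, sq]
      calc x = x * L * (L : ℝ≥0∞)⁻¹ := by rw [mul_assoc, ENNReal.mul_inv_cancel hL0 hLt, mul_one]
        _ ≤ x * x * (L : ℝ≥0∞)⁻¹ := by gcongr
  rw [zero_add] at h4
  exact absurd hL1 (not_lt.2 h4)

lemma IsCoeff.abs_gg_le (H : IsCoeff P ξ) (γ : ℝ) (k : ℕ) (c : ℂ) (z : S1) :
    |gg (sig P ξ) γ k c z| ≤ |γ| + γ ^ 2 / 2 := by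
  unfold gg
  refine (abs_sub _ _).trans (add_le_add ?_ ?_)
  · rw [abs_mul]
    exact mul_le_of_le_one_right (abs_nonneg _) (abs_yy_tr_le k _ _ (norm_pow_S1 z _).le)
  · have h0 := H.QF_nonneg ((z : ℂ) ^ (k + 1))
    have h1 := QF_le H.norm_sig ((z : ℂ) ^ (k + 1))
    rw [norm_pow_S1, one_pow] at h1
    rw [abs_of_nonneg (by positivity)]
    have h2 : QF (sig P ξ) ((z : ℂ) ^ (k + 1)) / ((k : ℝ) + 1) ≤ 1 := by
      rw [div_le_one (by positivity)]
      linarith [(Nat.cast_nonneg k : (0 : ℝ) ≤ k)]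
    exact mul_le_of_le_one_right (by positivity) h2

lemma IsCoeff.nu_compare (H : IsCoeff P ξ) (γ : ℝ) (U : Set S1) (m n : ℕ) (hmn : m ≤ n) (ω : Ω) :
    nu P ξ γ (Finset.range n) U ω ≤
      ENNReal.ofReal (Real.exp (m * (|γ| + γ ^ 2 / 2))) * nu P ξ γ (Finset.Ico m n) U ω ∧
    nu P ξ γ (Finset.Ico m n) U ω ≤
      ENNReal.ofReal (Real.exp (m * (|γ| + γ ^ 2 / 2))) * nu P ξ γ (Finset.range n) U ω := by
  have h1 : ∀ z : S1, |∑ k ∈ Finset.range m, gg (sig P ξ) γ k (ξ k ω) z| ≤ m * (|γ| + γ ^ 2 / 2) := by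
    intro z
    refine (Finset.abs_sum_le_sum_abs _ _).trans ?_
    refine (Finset.sum_le_card_nsmul _ _ _ fun k _ => H.abs_gg_le γ k _ z).trans ?_
    rw [Finset.card_range, nsmul_eq_mul]
  unfold nu
  constructor
  · rw [← lintegral_const_mul' _ _ ENNReal.ofReal_ne_top]
    refine lintegral_mono fun z => ?_
    simp only
    rw [← ENNReal.ofReal_mul (Real.exp_pos _).le]
    apply ENNReal.ofReal_le_ofReal
    unfold TT
    rw [← Real.exp_add, ← Finset.sum_range_add_sum_Ico _ hmn]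
    apply Real.exp_le_exp.2
    linarith [(abs_le.1 (h1 z)).2]
  · rw [← lintegral_const_mul' _ _ ENNReal.ofReal_ne_top]
    refine lintegral_mono fun z => ?_
    simp only
    rw [← ENNReal.ofReal_mul (Real.exp_pos _).le]
    apply ENNReal.ofReal_le_ofReal
    unfold TT
    rw [← Real.exp_add, ← Finset.sum_range_add_sum_Ico _ hmn]
    apply Real.exp_le_exp.2
    linarith [(abs_le.1 (h1 z)).1]

theorem IsCoeff.ae_not_zero (H : IsCoeff P ξ) {γ : ℝ} (hγ : γ ^ 2 < 2)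
    (hsum : Summable (tl P ξ)) :
    ∀ᵐ ω ∂P, ¬ Tendsto (fun n => nu P ξ γ (Finset.range n) (ball ptI (3 / 8)) ω) atTop (𝓝 0) := by
  set U : Set S1 := ball ptI (3 / 8) with hU
  set E : Set Ω := {ω | Tendsto (fun n => nu P ξ γ (Finset.range n) U ω) atTop (𝓝 0)} with hE
  have hEm : ∀ m, E = {ω | Tendsto (fun n => nu P ξ γ (Finset.Ico m n) U ω) atTop (𝓝 0)} := by
    intro m
    ext ω
    simp only [hE, mem_ofPred_eq]
    constructor
    · intro h
      have h1 := ENNReal.Tendsto.const_mul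
        (a := ENNReal.ofReal (Real.exp (m * (|γ| + γ ^ 2 / 2)))) h (Or.inr ENNReal.ofReal_ne_top)
      rw [mul_zero] at h1
      refine tendsto_of_tendsto_of_tendsto_of_le_of_le' tendsto_const_nhds h1
        (Eventually.of_forall fun _ => zero_le) ?_
      filter_upwards [eventually_ge_atTop m] with n hn
      exact (H.nu_compare γ U m n hn ω).2
    · intro h
      have h1 := ENNReal.Tendsto.const_mul
        (a := ENNReal.ofReal (Real.exp (m * (|γ| + γ ^ 2 / 2)))) h (Or.inr ENNReal.ofReal_ne_top)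
      rw [mul_zero] at h1
      refine tendsto_of_tendsto_of_tendsto_of_le_of_le' tendsto_const_nhds h1
        (Eventually.of_forall fun _ => zero_le) ?_
      filter_upwards [eventually_ge_atTop m] with n hn
      exact (H.nu_compare γ U m n hn ω).1
  let s : ℕ → MeasurableSpace Ω := fun k => MeasurableSpace.comap (ξ k) inferInstance
  have htail : MeasurableSet[limsup s atTop] E := by
    rw [limsup_eq_iInf_iSup_of_nat, MeasurableSpace.measurableSet_iInf]
    intro m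
    rw [hEm m]
    refine @measurableSet_tendsto Ω ℝ≥0∞ ℕ (⨆ i, ⨆ (_ : i ≥ m), s i) _ _ atTop _ (𝓝 0) _ _
      (fun n => nu P ξ γ (Finset.Ico m n) U) fun n => ?_
    refine measurable_nu γ _ _ fun k hk => ?_
    refine Measurable.of_comap_le ?_
    exact le_iSup₂_of_le (f := fun i (_ : i ≥ m) => s i) k (Finset.mem_Ico.1 hk).1 le_rfl
  have h01 := measure_zero_or_one_of_measurableSet_limsup_atTop (s := s)
    (fun k => (H.meas k).comap_le) ((iIndepFun_iff_iIndep _ _ _).1 H.indep) htail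
  rcases h01 with h | h
  · rw [ae_iff]
    simpa using h
  · exfalso
    have hEmeas : MeasurableSet E :=
      measurableSet_tendsto (𝓝 0) fun n => measurable_nu γ _ _ fun k _ => H.meas k
    exact H.not_ae_zero hγ hsum ((mem_ae_iff_prob_eq_one hEmeas).2 h)

/-- Comparison of the chaos density with the truncated density. -/
theorem IsCoeff.compare (H : IsCoeff P ξ) (γ : ℝ) :
    ∀ᵐ ω ∂P, ∃ c : ℝ≥0∞, c ≠ ⊤ ∧ ∀ᶠ n in atTop, ∀ U : Set S1, MeasurableSet U →
      arcLength.withDensity (fun z => ENNReal.ofReal (chaosDensity P ξ γ n ω z)) U ≤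
        c * nu P ξ γ (Finset.range n) U ω ∧
      nu P ξ γ (Finset.range n) U ω ≤
        c * arcLength.withDensity (fun z => ENNReal.ofReal (chaosDensity P ξ γ n ω z)) U := by
  filter_upwards [ae_eventually_small P ξ H.meas H.memLp H.ident] with ω hω
  obtain ⟨n0, hn0⟩ := eventually_atTop.1 hω
  refine ⟨ENNReal.ofReal (Real.exp (|γ| * ∑ k ∈ Finset.range n0, ‖ξ k ω‖)),
    ENNReal.ofReal_ne_top, ?_⟩
  filter_upwards [eventually_ge_atTop n0] with n hn U hU
  have h1 : ∀ z : S1, chaosDensity P ξ γ n ω z =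
      Real.exp (γ * ∑ k ∈ Finset.range n, yy k (ξ k ω) ((z : ℂ) ^ (k + 1)) -
        γ ^ 2 / 2 * VV (sig P ξ) n z) := by
    intro z
    have h2 := dens_eq P ξ H.meas H.memLp H.mean' pw norm_pw_le γ H.indep n ω z
    have h3 : chaosDensity P ξ γ n ω z = dens P ξ pw γ n ω z := by
      unfold dens chaosDensity
      simp only [PP_pw]
    rw [h3, h2]
    have h4 : ∀ k, vv P ξ pw k z = QF (sig P ξ) ((z : ℂ) ^ (k + 1)) / ((k : ℝ) + 1) := by
      intro k
      rw [← H.QF_eq k, ← integral_div]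
      unfold vv
      congr 1
      funext ω'
      exact yy_sq k _ _
    simp only [h4]
    rfl
  have h5 : ∀ z : S1, |γ * ∑ k ∈ Finset.range n, yy k (ξ k ω) ((z : ℂ) ^ (k + 1)) -
      γ * ∑ k ∈ Finset.range n, yy k (tr k (ξ k ω)) ((z : ℂ) ^ (k + 1))| ≤
      |γ| * ∑ k ∈ Finset.range n0, ‖ξ k ω‖ := by
    intro z
    rw [← mul_sub, abs_mul, ← Finset.sum_sub_distrib]
    gcongr
    have h6 : ∑ k ∈ Finset.range n0, (yy k (ξ k ω) ((z : ℂ) ^ (k + 1)) -
        yy k (tr k (ξ k ω)) ((z : ℂ) ^ (k + 1))) = ∑ k ∈ Finset.range n,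
        (yy k (ξ k ω) ((z : ℂ) ^ (k + 1)) - yy k (tr k (ξ k ω)) ((z : ℂ) ^ (k + 1))) := by
      apply Finset.sum_subset (Finset.range_mono hn)
      intro k _ hk
      have : n0 ≤ k := by simpa using hk
      rw [tr, if_pos (hn0 k this), sub_self]
    rw [← h6]
    refine (Finset.abs_sum_le_sum_abs _ _).trans (Finset.sum_le_sum fun k _ => ?_)
    unfold tr
    split_ifs
    · simp
    · have : yy k 0 ((z : ℂ) ^ (k + 1)) = 0 := by simp [yy]
      rw [this, sub_zero]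
      exact abs_yy_le' k _ _ (norm_pow_S1 z _).le
  rw [withDensity_apply _ hU]
  unfold nu
  constructor
  · rw [← lintegral_const_mul' _ _ ENNReal.ofReal_ne_top]
    refine lintegral_mono fun z => ?_
    simp only
    rw [← ENNReal.ofReal_mul (Real.exp_pos _).le, h1, TT_range, ← Real.exp_add]
    apply ENNReal.ofReal_le_ofReal
    apply Real.exp_le_exp.2
    linarith [(abs_le.1 (h5 z)).2]
  · rw [← lintegral_const_mul' _ _ ENNReal.ofReal_ne_top]
    refine lintegral_mono fun z => ?_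
    simp only
    rw [← ENNReal.ofReal_mul (Real.exp_pos _).le, h1, TT_range, ← Real.exp_add]
    apply ENNReal.ofReal_le_ofReal
    apply Real.exp_le_exp.2
    linarith [(abs_le.1 (h5 z)).1]

lemma re_sq_add (c z : ℂ) (hz : ‖z‖ = 1) :
    z.im ^ 2 / 3 * ‖c‖ ^ 2 ≤ c.re ^ 2 + (c * z).re ^ 2 := by
  have h1 : z.re ^ 2 + z.im ^ 2 = 1 := by
    have h2 := Complex.sq_norm z
    rw [hz, Complex.normSq_apply] at h2
    nlinarith
  rw [Complex.sq_norm, Complex.normSq_apply, Complex.mul_re]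
  set t := c.re * z.re - c.im * z.im with ht
  have h3 : c.im * z.im = c.re * z.re - t := by rw [ht]; ring
  have h4 : (c.im * z.im) ^ 2 ≤ 2 * (c.re * z.re) ^ 2 + 2 * t ^ 2 := by
    rw [h3]; nlinarith [sq_nonneg (c.re * z.re + t)]
  have h5 : (c.re * z.re) ^ 2 ≤ c.re ^ 2 := by
    rw [mul_pow]; nlinarith [sq_nonneg c.re, sq_nonneg z.im]
  have h6 : (c.re * z.im) ^ 2 ≤ c.re ^ 2 := by
    rw [mul_pow]; nlinarith [sq_nonneg c.re, sq_nonneg z.re]
  nlinarith [sq_nonneg t]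

lemma IsCoeff.ww_pair (H : IsCoeff P ξ) (k : ℕ) (z : S1) :
    (z : ℂ).im ^ 2 / 3 * tl P ξ (k + 1) ≤
      ww P ξ k ((z : ℂ) ^ (k + 1)) + ww P ξ (k + 1) ((z : ℂ) ^ (k + 1 + 1)) := by
  unfold tl ww
  rw [← integral_add (H.int_wf k 0 _) (H.int_wf (k + 1) 0 _), ← integral_const_mul]
  refine integral_mono ((H.int_tf (k + 1)).const_mul _)
    ((H.int_wf k 0 _).add (H.int_wf (k + 1) 0 _)) fun ω => ?_
  simp only
  have hk : (0 : ℝ) ≤ k := Nat.cast_nonneg k
  by_cases h : ‖ξ 0 ω‖ ^ 2 ≤ ((k + 1 : ℕ) : ℝ) + 1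
  · rw [if_pos h, if_pos h]
    simp only [zero_div, mul_zero, add_zero]
    split_ifs <;> positivity
  · have h' : ¬ ‖ξ 0 ω‖ ^ 2 ≤ (k : ℝ) + 1 := by
      intro h2; apply h; push_cast; linarith
    rw [if_neg h, if_neg h, if_neg h']
    have h1 := re_sq_add (ξ 0 ω * (z : ℂ) ^ (k + 1)) z (norm_S1 z)
    rw [norm_mul, norm_pow_S1, mul_one, mul_assoc, ← pow_succ] at h1
    push_cast
    have h2 : (ξ 0 ω * (z : ℂ) ^ (k + 1)).re ^ 2 / ((k : ℝ) + 1 + 1) ≤
        (ξ 0 ω * (z : ℂ) ^ (k + 1)).re ^ 2 / ((k : ℝ) + 1) := by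
      gcongr; linarith
    have h3 : (z : ℂ).im ^ 2 / 3 * (‖ξ 0 ω‖ ^ 2 / ((k : ℝ) + 1 + 1)) ≤
        ((ξ 0 ω * (z : ℂ) ^ (k + 1)).re ^ 2 + (ξ 0 ω * (z : ℂ) ^ (k + 1 + 1)).re ^ 2) /
          ((k : ℝ) + 1 + 1) := by
      rw [← mul_div_assoc]
      gcongr
    rw [add_div] at h3
    linarith

lemma IsCoeff.ww_tendsto (H : IsCoeff P ξ) (hns : ¬ Summable (tl P ξ)) (z : S1)
    (hz : (z : ℂ).im ≠ 0) :
    Tendsto (fun n => ∑ k ∈ Finset.range n, ww P ξ k ((z : ℂ) ^ (k + 1))) atTop atTop := by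
  rw [← not_summable_iff_tendsto_nat_atTop_of_nonneg fun k => ww_nonneg k _]
  intro hs
  apply hns
  rw [← summable_nat_add_iff 1]
  have h1 : Summable fun k => ww P ξ k ((z : ℂ) ^ (k + 1)) +
      ww P ξ (k + 1) ((z : ℂ) ^ (k + 1 + 1)) :=
    hs.add ((summable_nat_add_iff (f := fun k => ww P ξ k ((z : ℂ) ^ (k + 1))) 1).2 hs)
  have h2 : Summable fun k => (z : ℂ).im ^ 2 / 3 * tl P ξ (k + 1) :=
    Summable.of_nonneg_of_le (fun k => mul_nonneg (by positivity) (tl_nonneg _))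
      (fun k => H.ww_pair k z) h1
  exact (summable_mul_left_iff (by positivity)).1 h2

theorem IsCoeff.ae_liminf_zero (H : IsCoeff P ξ) {γ : ℝ} (hγ : γ ≠ 0)
    (hns : ¬ Summable (tl P ξ)) :
    ∀ᵐ ω ∂P, liminf (fun n => nu P ξ γ (Finset.range n) univ ω) atTop = 0 := by
  have hm : ∀ n, Measurable (nu P ξ γ (Finset.range n) univ) := fun n =>
    measurable_nu γ _ _ fun k _ => H.meas k
  have hb : ∀ n (z : S1), ∫⁻ ω, ENNReal.ofReal (TT P ξ γ (Finset.range n) ω z) ∂P ≤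
      ENNReal.ofReal (Real.exp (DD P ξ γ -
        γ ^ 2 / 2 * ∑ k ∈ Finset.range n, ww P ξ k ((z : ℂ) ^ (k + 1)))) := by
    intro n z
    rw [lint_TT]
    refine (mul_le_mul_left (H.lap_prod_upper (Finset.range n)
      (fun k => (z : ℂ) ^ (k + 1)) (fun k => (norm_pow_S1 z _).le) γ) _).trans ?_
    rw [← ENNReal.ofReal_mul (Real.exp_pos _).le, ← Real.exp_add]
    apply le_of_eq
    congr 2
    unfold VV
    rw [Finset.sum_sub_distrib]
    ring
  have h1 : Tendsto (fun n => ∫⁻ z, ∫⁻ ω, ENNReal.ofReal (TT P ξ γ (Finset.range n) ω z) ∂P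
      ∂arcLength) atTop (𝓝 (∫⁻ _z, 0 ∂arcLength)) := by
    refine tendsto_lintegral_of_dominated_convergence
      (fun _ => ENNReal.ofReal (Real.exp (DD P ξ γ)))
      (fun n => (H.meas_prod γ (Finset.range n)).lintegral_prod_left')
      (fun n => ae_of_all _ fun z => ?_) ?_ ?_
    · refine (hb n z).trans (ENNReal.ofReal_le_ofReal (Real.exp_le_exp.2 ?_))
      have : 0 ≤ ∑ k ∈ Finset.range n, ww P ξ k ((z : ℂ) ^ (k + 1)) :=
        Finset.sum_nonneg fun k _ => ww_nonneg k _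
      have : 0 ≤ γ ^ 2 / 2 * ∑ k ∈ Finset.range n, ww P ξ k ((z : ℂ) ^ (k + 1)) := by positivity
      linarith
    · rw [lintegral_const]
      exact ENNReal.mul_ne_top ENNReal.ofReal_ne_top (measure_ne_top _ _)
    · have hne : ∀ᵐ (z : S1) ∂arcLength, (z : ℂ).im ≠ 0 := by
        rw [ae_iff]
        simpa using arc_real_null
      filter_upwards [hne] with z hz
      have h2 := (H.ww_tendsto hns z hz).const_mul_atTop (show 0 < γ ^ 2 / 2 by positivity)
      have h3 : Tendsto (fun n => DD P ξ γ -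
          γ ^ 2 / 2 * ∑ k ∈ Finset.range n, ww P ξ k ((z : ℂ) ^ (k + 1))) atTop atBot :=
        tendsto_atBot_add_const_left _ _ (tendsto_neg_atTop_atBot.comp h2)
      have h4 := ENNReal.tendsto_ofReal (Real.tendsto_exp_atBot.comp h3)
      rw [ENNReal.ofReal_zero] at h4
      exact tendsto_of_tendsto_of_tendsto_of_le_of_le tendsto_const_nhds h4 (fun _ => zero_le)
        (fun n => hb n z)
  rw [lintegral_zero] at h1
  have h2 : ∫⁻ ω, liminf (fun n => nu P ξ γ (Finset.range n) univ ω) atTop ∂P = 0 := by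
    apply le_antisymm _ zero_le
    refine (lintegral_liminf_le hm).trans ?_
    simp only [H.mean_nu, Measure.restrict_univ]
    exact h1.liminf_eq.le
  exact (lintegral_eq_zero_iff (Measurable.liminf hm)).1 h2

/-- one term of the tail sum -/
noncomputable def tf (k : ℕ) (t : ℝ) : ℝ :=
  (if t ^ 2 ≤ (k : ℝ) + 1 then 0 else t ^ 2) / ((k : ℝ) + 1)

lemma tf_nonneg (k : ℕ) (t : ℝ) : 0 ≤ tf k t := by
  unfold tf; split_ifs <;> positivity

lemma sum_tf_le (t : ℝ) (ht : 0 ≤ t) (n : ℕ) :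
    ∑ k ∈ Finset.range n, tf k t ≤ t ^ 2 + 2 * (t ^ 2 * Real.posLog t) := by
  have hp := Real.posLog_nonneg (x := t)
  by_cases h1 : t ≤ 1
  · have : ∀ k ∈ Finset.range n, tf k t = 0 := by
      intro k _
      unfold tf
      rw [if_pos, zero_div]
      have := pow_le_one₀ ht h1 (n := 2)
      linarith [(Nat.cast_nonneg k : (0 : ℝ) ≤ k)]
    rw [Finset.sum_eq_zero this]
    positivity
  · push Not at h1
    have h2 : (1 : ℝ) ≤ t ^ 2 := one_le_pow₀ h1.le
    set m := ⌊t ^ 2⌋₊ with hm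
    have hm1 : 1 ≤ m := Nat.le_floor (by exact_mod_cast h2)
    have hm2 : (m : ℝ) ≤ t ^ 2 := Nat.floor_le (by positivity)
    have h3 : ∑ k ∈ Finset.range n, tf k t ≤ ∑ k ∈ Finset.range m, t ^ 2 * (1 / ((k : ℝ) + 1)) := by
      have h4 : ∑ k ∈ Finset.range n, tf k t = ∑ k ∈ Finset.range n ∩ Finset.range m, tf k t := by
        symm
        apply Finset.sum_subset Finset.inter_subset_left
        intro k hk hk'
        have h5 : m ≤ k := by
          by_contra h6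
          exact hk' (Finset.mem_inter.2 ⟨hk, Finset.mem_range.2 (not_le.1 h6)⟩)
        unfold tf
        rw [if_pos, zero_div]
        have h7 := Nat.lt_floor_add_one (t ^ 2)
        have h8 : (m : ℝ) ≤ k := by exact_mod_cast h5
        linarith
      rw [h4]
      refine le_trans (Finset.sum_le_sum_of_subset_of_nonneg Finset.inter_subset_right
        fun k _ _ => tf_nonneg k t) (Finset.sum_le_sum fun k _ => ?_)
      unfold tf
      rw [mul_one_div]
      gcongr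
      split_ifs
      · positivity
      · exact le_rfl
    refine h3.trans ?_
    rw [← Finset.mul_sum]
    have h5 := harm_upper m
    have h6 : Real.log m ≤ 2 * Real.posLog t := by
      rw [Real.posLog_eq_log (by rw [abs_of_nonneg ht]; exact h1.le)]
      have := Real.log_le_log (by exact_mod_cast hm1) hm2
      rw [Real.log_pow] at this
      exact_mod_cast this
    have h7 := mul_le_mul_of_nonneg_left (h5.trans (add_le_add_right h6 1)) (sq_nonneg t)
    linarith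

lemma le_sum_tf (t : ℝ) (ht : 0 ≤ t) :
    ∃ m, t ^ 2 * Real.posLog t ≤ ∑ k ∈ Finset.range m, tf k t := by
  by_cases h1 : t ≤ 1
  · refine ⟨0, ?_⟩
    rw [(Real.posLog_eq_zero_iff t).2 (by rw [abs_of_nonneg ht]; exact h1)]
    simp
  · push Not at h1
    have h2 : (1 : ℝ) < t ^ 2 := one_lt_pow₀ h1 (by norm_num)
    obtain ⟨m, hm⟩ : ∃ m, ⌈t ^ 2⌉₊ = m + 1 :=
      Nat.exists_eq_succ_of_ne_zero (Nat.pos_iff_ne_zero.1 (Nat.ceil_pos.2 (by linarith)))
    refine ⟨m, ?_⟩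
    have h3 : t ^ 2 ≤ (m : ℝ) + 1 := by
      have := Nat.le_ceil (t ^ 2)
      rw [hm] at this
      exact_mod_cast this
    have h4 : (m : ℝ) < t ^ 2 := by
      have := Nat.ceil_lt_add_one (show 0 ≤ t ^ 2 by positivity)
      rw [hm] at this
      push_cast at this
      linarith
    have h5 : ∑ k ∈ Finset.range m, tf k t = t ^ 2 * ∑ k ∈ Finset.range m, 1 / ((k : ℝ) + 1) := by
      rw [Finset.mul_sum]
      refine Finset.sum_congr rfl fun k hk => ?_
      have h6 : ((k + 1 : ℕ) : ℝ) ≤ m := by exact_mod_cast Finset.mem_range.1 hk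
      push_cast at h6
      unfold tf
      rw [if_neg (by linarith), mul_one_div]
    rw [h5]
    gcongr
    refine le_trans ?_ (harm_lower m)
    rw [Real.posLog_eq_log (by rw [abs_of_nonneg ht]; exact h1.le)]
    apply Real.log_le_log (by linarith)
    nlinarith

theorem IsCoeff.summable_iff (H : IsCoeff P ξ) :
    Summable (tl P ξ) ↔ Integrable (fun ω => ‖ξ 0 ω‖ ^ 2 * Real.posLog ‖ξ 0 ω‖) P := by
  have htl : ∀ k, tl P ξ k = ∫ ω, tf k ‖ξ 0 ω‖ ∂P := fun k => rfl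
  have hint : ∀ k, Integrable (fun ω => tf k ‖ξ 0 ω‖) P := fun k => H.int_tf k
  constructor
  · intro hs
    have hmeas : Measurable fun ω => ‖ξ 0 ω‖ ^ 2 * Real.posLog ‖ξ 0 ω‖ :=
      ((H.meas 0).norm.pow_const 2).mul (Real.continuous_posLog.measurable.comp (H.meas 0).norm)
    refine ⟨hmeas.aestronglyMeasurable, ?_⟩
    rw [hasFiniteIntegral_iff_ofReal (ae_of_all _ fun ω =>
      mul_nonneg (by positivity) Real.posLog_nonneg)]
    have h1 : ∀ ω, ENNReal.ofReal (‖ξ 0 ω‖ ^ 2 * Real.posLog ‖ξ 0 ω‖) ≤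
        ∑' k, ENNReal.ofReal (tf k ‖ξ 0 ω‖) := by
      intro ω
      obtain ⟨m, hm⟩ := le_sum_tf ‖ξ 0 ω‖ (norm_nonneg _)
      refine (ENNReal.ofReal_le_ofReal hm).trans ?_
      rw [ENNReal.ofReal_sum_of_nonneg fun k _ => tf_nonneg k _]
      exact ENNReal.sum_le_tsum _
    refine (lintegral_mono h1).trans_lt ?_
    rw [lintegral_tsum fun k => (hint k).aemeasurable.ennreal_ofReal]
    have h2 : ∀ k, ∫⁻ ω, ENNReal.ofReal (tf k ‖ξ 0 ω‖) ∂P = ENNReal.ofReal (tl P ξ k) := by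
      intro k
      rw [htl, ofReal_integral_eq_lintegral_ofReal (hint k) (ae_of_all _ fun ω => tf_nonneg k _)]
    simp only [h2]
    rw [← ENNReal.ofReal_tsum_of_nonneg (fun k => tl_nonneg k) hs]
    exact ENNReal.ofReal_lt_top
  · intro hi
    refine summable_of_sum_range_le (c := ∫ ω, (‖ξ 0 ω‖ ^ 2 +
      2 * (‖ξ 0 ω‖ ^ 2 * Real.posLog ‖ξ 0 ω‖)) ∂P) (fun k => tl_nonneg k) fun n => ?_
    simp only [htl]
    rw [← integral_finsetSum _ fun k _ => hint k]
    exact integral_mono (integrable_finsetSum _ fun k _ => hint k)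
      (H.sq_int.add (hi.const_mul 2)) fun ω => sum_tf_le _ (norm_nonneg _) n

end Pool.Agent.H403Z.MC
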