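import Mathlib

/-!
Deterministic lemmas on the Hausdorff dimension of a measure, from moment sums over
coverings at the scales `2^(-n)`.
-/

open MeasureTheory Filter Topology Set Metric
open scoped ENNReal NNReal

set_option linter.unusedSectionVars false

namespace Pool.Agent.H403Z.MC

/-- The Hausdorff dimension of a measure: the infimum of the Hausdorff dimensions of the Borel
sets whose complement is null. -/
noncomputable def measDim {X : Type*} [EMetricSpace X] [MeasurableSpace X] (μ : Measure X) :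
    ℝ≥0∞ :=
  ⨅ (A : Set X) (_ : MeasurableSet A) (_ : μ Aᶜ = 0), dimH A

/-- the scale `2^(-n)` -/
noncomputable def rho (n : ℕ) : ℝ≥0∞ := (2 : ℝ≥0∞)⁻¹ ^ n

lemma rho_ne_zero (n : ℕ) : rho n ≠ 0 := by
  unfold rho; exact pow_ne_zero _ (by simp)

lemma rho_ne_top (n : ℕ) : rho n ≠ ⊤ := by
  unfold rho; exact ENNReal.pow_ne_top (by simp)

lemma rho_eq (n : ℕ) : rho n = ENNReal.ofReal ((1 / 2 : ℝ) ^ n) := by
  unfold rho
  rw [ENNReal.ofReal_pow (by norm_num)]
  congr 1
  rw [one_div, ENNReal.ofReal_inv_of_pos (by norm_num)]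
  simp

lemma tendsto_rho : Tendsto rho atTop (𝓝 0) := by
  unfold rho
  exact ENNReal.tendsto_pow_atTop_nhds_zero_of_lt_one (by simp)

variable {X : Type*} [MetricSpace X] [MeasurableSpace X] [BorelSpace X]

lemma measDim_le {μ : Measure X} {A : Set X} (hA : MeasurableSet A) (h0 : μ Aᶜ = 0) :
    measDim μ ≤ dimH A := by
  unfold measDim
  exact iInf_le_of_le A (iInf_le_of_le hA (iInf_le_of_le h0 le_rfl))

lemma le_measDim {μ : Measure X} {d : ℝ≥0∞} (h : ∀ A : Set X, μ Aᶜ = 0 → d ≤ dimH A) :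
    d ≤ measDim μ := by
  unfold measDim
  exact le_iInf fun A => le_iInf fun _ => le_iInf fun h0 => h A h0

lemma measDim_zero : measDim (0 : Measure X) = 0 := by
  apply le_antisymm _ (zero_le)
  have := measDim_le (μ := (0 : Measure X)) MeasurableSet.empty (by simp)
  simpa using this

theorem upper_dim (μ : Measure X) {ι : Type*} (J : ℕ → Finset ι) (c : ℕ → ι → Set X)
    (hc : ∀ n j, MeasurableSet (c n j)) (a : ℝ≥0∞) (ha : a ≠ ⊤)
    (hd : ∀ n j, ediam (c n j) ≤ a * rho n) (s q : ℝ) (hs : 0 < s) (hq0 : 0 < q) (hq1 : q < 1)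
    (hsum : ∑' n, rho n ^ (q * s) * ∑ j ∈ J n, μ (c n j) ^ (1 - q) ≠ ⊤) :
    ∃ A : Set X, MeasurableSet A ∧ dimH A ≤ ENNReal.ofReal s ∧
      μ ({z | ∀ᶠ n in atTop, ∃ j ∈ J n, z ∈ c n j} \ A) = 0 := by
  classical
  set b : ℕ → ℝ≥0∞ := fun n => rho n ^ (q * s) * ∑ j ∈ J n, μ (c n j) ^ (1 - q) with hb
  let gd : ℕ → Finset ι := fun n => (J n).filter fun j => rho n ^ s ≤ μ (c n j)
  let bd : ℕ → Finset ι := fun n => (J n).filter fun j => ¬ rho n ^ s ≤ μ (c n j)
  let G : ℕ → Set X := fun n => ⋃ j ∈ gd n, c n j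
  let B : ℕ → Set X := fun n => ⋃ j ∈ bd n, c n j
  have hGm : ∀ n, MeasurableSet (G n) := fun n =>
    Finset.measurableSet_biUnion _ fun j _ => hc n j
  have hB : ∀ n, μ (B n) ≤ b n := by
    intro n
    refine (measure_biUnion_finset_le _ _).trans ?_
    simp only [hb]
    rw [Finset.mul_sum]
    refine le_trans (Finset.sum_le_sum fun j hj => ?_)
      (Finset.sum_le_sum_of_subset (Finset.filter_subset _ _))
    have h1 : μ (c n j) ≤ rho n ^ s := (not_le.1 (Finset.mem_filter.1 hj).2).le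
    calc μ (c n j) = μ (c n j) ^ q * μ (c n j) ^ (1 - q) := by
          rw [← ENNReal.rpow_add_of_nonneg _ _ hq0.le (by linarith)]; simp
      _ ≤ (rho n ^ s) ^ q * μ (c n j) ^ (1 - q) := by gcongr
      _ = rho n ^ (q * s) * μ (c n j) ^ (1 - q) := by rw [← ENNReal.rpow_mul, mul_comm s q]
  have hae : ∀ᵐ z ∂μ, ∀ᶠ n in atTop, z ∉ B n :=
    ae_eventually_notMem (ne_top_of_le_ne_top hsum (ENNReal.tsum_le_tsum hB))
  refine ⟨⋃ m : ℕ, ⋂ n ∈ Ici m, G n, ?_, ?_, ?_⟩
  · exact MeasurableSet.iUnion fun m => MeasurableSet.biInter (to_countable _) fun n _ => hGm n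
  · rw [dimH_iUnion]
    refine iSup_le fun m => ?_
    have h1 := Measure.hausdorffMeasure_le_liminf_sum (ι := fun n => ↥(gd n)) s
      (⋂ n ∈ Ici m, G n) (l := atTop) (fun n => a * rho n)
      (by simpa using ENNReal.Tendsto.const_mul tendsto_rho (Or.inr ha))
      (fun n i => c n i) (Eventually.of_forall fun n i => hd n i) (by
        filter_upwards [eventually_ge_atTop m] with n hn
        intro z hz
        have h2 : z ∈ G n := mem_iInter₂.1 hz n hn
        obtain ⟨j, hj, hzj⟩ := mem_iUnion₂.1 h2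
        exact mem_iUnion.2 ⟨⟨j, hj⟩, hzj⟩)
    have h2 : ∀ n, ∑ i : ↥(gd n), ediam (c n i) ^ s ≤ a ^ s * ∑' n, b n := by
      intro n
      rw [Finset.sum_coe_sort (gd n) (fun j => ediam (c n j) ^ s)]
      refine le_trans ?_ (mul_le_mul_right (ENNReal.le_tsum n) _)
      simp only [hb]
      rw [Finset.mul_sum, Finset.mul_sum]
      refine le_trans (Finset.sum_le_sum fun j hj => ?_)
        (Finset.sum_le_sum_of_subset (Finset.filter_subset _ _))
      have h3 : rho n ^ s ≤ μ (c n j) := (Finset.mem_filter.1 hj).2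
      calc ediam (c n j) ^ s ≤ (a * rho n) ^ s := by gcongr; exact hd n j
        _ = a ^ s * rho n ^ s := ENNReal.mul_rpow_of_nonneg _ _ hs.le
        _ = a ^ s * ((rho n ^ s) ^ q * (rho n ^ s) ^ (1 - q)) := by
          rw [← ENNReal.rpow_add_of_nonneg _ _ hq0.le (by linarith)]; simp
        _ ≤ a ^ s * ((rho n ^ s) ^ q * μ (c n j) ^ (1 - q)) := by
          gcongr
        _ = a ^ s * (rho n ^ (q * s) * μ (c n j) ^ (1 - q)) := by
          rw [← ENNReal.rpow_mul, mul_comm s q]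
    have h3 : μH[s] (⋂ n ∈ Ici m, G n) ≤ a ^ s * ∑' n, b n :=
      h1.trans (liminf_le_of_frequently_le' (Frequently.of_forall h2))
    have h4 : μH[s] (⋂ n ∈ Ici m, G n) ≠ ⊤ :=
      ne_top_of_le_ne_top (ENNReal.mul_ne_top (ENNReal.rpow_ne_top_of_nonneg hs.le ha) hsum) h3
    have h5 := dimH_le_of_hausdorffMeasure_ne_top (d := s.toNNReal)
      (s := ⋂ n ∈ Ici m, G n) (by rwa [Real.coe_toNNReal _ hs.le])
    exact h5
  · refine measure_mono_null ?_ hae
    rintro z ⟨hz, hzA⟩ hzB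
    apply hzA
    obtain ⟨m, hm⟩ := eventually_atTop.1 (hz.and hzB)
    refine mem_iUnion.2 ⟨m, mem_iInter₂.2 fun n hn => ?_⟩
    obtain ⟨⟨j, hj, hzj⟩, hnB⟩ := hm n hn
    by_cases hg : rho n ^ s ≤ μ (c n j)
    · exact mem_iUnion₂.2 ⟨j, Finset.mem_filter.2 ⟨hj, hg⟩, hzj⟩
    · exact absurd (mem_iUnion₂.2 ⟨j, Finset.mem_filter.2 ⟨hj, hg⟩, hzj⟩) hnB

theorem lower_dim (μ : Measure X) {ι : Type*} (J : ℕ → Finset ι) (c : ℕ → ι → Set X)
    (hc : ∀ n j, MeasurableSet (c n j)) (s q : ℝ) (hs : 0 < s) (hq0 : 0 < q)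
    (hsum : ∑' n, rho n ^ (-(q * s)) * ∑ j ∈ J n, μ (c n j) ^ (1 + q) ≠ ⊤)
    (R : Set X) (hRm : MeasurableSet R) (hR : μ R ≠ 0) (n0 : ℕ)
    (hcov : ∀ n, n0 ≤ n → ∀ z ∈ R, ∃ j ∈ J n, closedBall z ((1 / 2 : ℝ) ^ n) ⊆ c n j)
    (A : Set X) (hA : μ Aᶜ = 0) : ENNReal.ofReal s ≤ dimH A := by
  classical
  set b : ℕ → ℝ≥0∞ := fun n => rho n ^ (-(q * s)) * ∑ j ∈ J n, μ (c n j) ^ (1 + q) with hb
  let bd : ℕ → Finset ι := fun n => (J n).filter fun j => rho n ^ s < μ (c n j)
  let B : ℕ → Set X := fun n => ⋃ j ∈ bd n, c n j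
  have hBm : ∀ n, MeasurableSet (B n) := fun n =>
    Finset.measurableSet_biUnion _ fun j _ => hc n j
  have hB : ∀ n, μ (B n) ≤ b n := by
    intro n
    refine (measure_biUnion_finset_le _ _).trans ?_
    simp only [hb]
    rw [Finset.mul_sum]
    refine le_trans (Finset.sum_le_sum fun j hj => ?_)
      (Finset.sum_le_sum_of_subset (Finset.filter_subset _ _))
    have h1 : rho n ^ s ≤ μ (c n j) := (Finset.mem_filter.1 hj).2.le
    have h2 : rho n ^ (-(q * s)) * rho n ^ (q * s) = 1 := by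
      rw [← ENNReal.rpow_add _ _ (rho_ne_zero n) (rho_ne_top n)]; simp
    calc μ (c n j) = rho n ^ (-(q * s)) * (μ (c n j) * (rho n ^ s) ^ q) := by
          rw [← ENNReal.rpow_mul, mul_comm s q, mul_left_comm, h2, mul_one]
      _ ≤ rho n ^ (-(q * s)) * (μ (c n j) * μ (c n j) ^ q) := by gcongr
      _ = rho n ^ (-(q * s)) * μ (c n j) ^ (1 + q) := by
          rw [ENNReal.rpow_add_of_nonneg _ _ zero_le_one hq0.le, ENNReal.rpow_one]
  have hae : ∀ᵐ z ∂μ, ∀ᶠ n in atTop, z ∉ B n :=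
    ae_eventually_notMem (ne_top_of_le_ne_top hsum (ENNReal.tsum_le_tsum hB))
  let E : ℕ → Set X := fun m => R ∩ ⋂ n ∈ Ici (m + n0), (B n)ᶜ
  have hEm : ∀ m, MeasurableSet (E m) := fun m =>
    hRm.inter (MeasurableSet.biInter (to_countable _) fun n _ => (hBm n).compl)
  obtain ⟨m, hm⟩ : ∃ m, μ (E m) ≠ 0 := by
    by_contra hcon
    push Not at hcon
    apply hR
    have h1 : μ (⋃ m, E m) = 0 := measure_iUnion_null hcon
    refine measure_mono_null ?_ (measure_union_null h1 hae)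
    intro z hz
    by_cases hzB : ∀ᶠ n in atTop, z ∉ B n
    · left
      obtain ⟨m, hm⟩ := eventually_atTop.1 hzB
      exact mem_iUnion.2 ⟨m, hz, mem_iInter₂.2 fun n hn => hm n (le_trans (Nat.le_add_right _ _) hn)⟩
    · right; exact hzB
  have hball : ∀ z ∈ E m, ∀ n, m + n0 ≤ n → μ (closedBall z ((1 / 2 : ℝ) ^ n)) ≤ rho n ^ s := by
    intro z hz n hn
    obtain ⟨j, hj, hsub⟩ := hcov n (le_trans (Nat.le_add_left _ _) hn) z hz.1
    refine (measure_mono hsub).trans ?_
    by_contra hlt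
    have h1 : z ∈ B n := mem_iUnion₂.2 ⟨j, Finset.mem_filter.2 ⟨hj, not_le.1 hlt⟩,
      hsub (mem_closedBall_self (by positivity))⟩
    exact (mem_iInter₂.1 hz.2 n hn) h1
  have h2s0 : (2 : ℝ≥0∞) ^ s ≠ 0 := by simp
  have h2st : (2 : ℝ≥0∞) ^ s ≠ ⊤ := ENNReal.rpow_ne_top_of_nonneg hs.le (by simp)
  have hle : ((2 : ℝ≥0∞) ^ s)⁻¹ • μ.restrict (E m) ≤ μH[s] := by
    refine Measure.le_hausdorffMeasure s _ (rho (m + n0)) (pos_iff_ne_zero.2 (rho_ne_zero _)) ?_
    intro t ht
    rw [Measure.smul_apply, Measure.restrict_apply' (hEm m), smul_eq_mul]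
    rcases (t ∩ E m).eq_empty_or_nonempty with h | ⟨z, hzt, hzE⟩
    · rw [h]; simp
    have htop : ediam t ≠ ⊤ := ne_top_of_le_ne_top (rho_ne_top _) ht
    have hsub : ∀ r : ℝ, (ediam t).toReal ≤ r → t ⊆ closedBall z r := by
      intro r hr w hw
      rw [mem_closedBall]
      refine le_trans ?_ hr
      rw [dist_edist]
      exact ENNReal.toReal_mono htop (edist_le_ediam_of_mem hw hzt)
    rcases (ENNReal.toReal_nonneg (a := ediam t)).eq_or_lt with h0 | hpos
    · have h3 : μ (t ∩ E m) = 0 := by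
        apply le_antisymm _ zero_le
        have h4 : Tendsto (fun n => rho n ^ s) atTop (𝓝 0) := by
          have := (ENNReal.continuous_rpow_const (y := s)).tendsto 0
          rw [ENNReal.zero_rpow_of_pos hs] at this
          exact this.comp tendsto_rho
        refine ge_of_tendsto h4 ?_
        filter_upwards [eventually_ge_atTop (m + n0)] with n hn
        refine le_trans (measure_mono ?_) (hball z hzE n hn)
        exact inter_subset_left.trans (hsub _ (by rw [← h0]; positivity))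
      rw [h3]; simp
    · have hle1 : (ediam t).toReal ≤ (1 / 2 : ℝ) ^ (m + n0) := by
        have := ENNReal.toReal_mono (rho_ne_top _) ht
        rwa [rho_eq, ENNReal.toReal_ofReal (by positivity)] at this
      obtain ⟨n, hn1, hn2⟩ := exists_nat_pow_near_of_lt_one hpos
        (hle1.trans (pow_le_one₀ (by norm_num) (by norm_num)))
        (show (0 : ℝ) < 1 / 2 by norm_num) (show (1 / 2 : ℝ) < 1 by norm_num)
      have hn : m + n0 ≤ n := by
        by_contra hlt
        have h5 : n + 1 ≤ m + n0 := by omega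
        have h6 : (1 / 2 : ℝ) ^ (m + n0) ≤ (1 / 2 : ℝ) ^ (n + 1) :=
          pow_le_pow_of_le_one (by norm_num) (by norm_num) h5
        linarith
      have h7 : μ (t ∩ E m) ≤ rho n ^ s :=
        le_trans (measure_mono (inter_subset_left.trans (hsub _ hn2))) (hball z hzE n hn)
      have h8 : rho (n + 1) ≤ ediam t := by
        rw [rho_eq, ← ENNReal.ofReal_toReal htop]
        exact ENNReal.ofReal_le_ofReal hn1.le
      have h9 : rho n = 2 * rho (n + 1) := by
        unfold rho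
        rw [pow_succ', ← mul_assoc, ENNReal.mul_inv_cancel (by simp) (by simp), one_mul]
      calc ((2 : ℝ≥0∞) ^ s)⁻¹ * μ (t ∩ E m) ≤ ((2 : ℝ≥0∞) ^ s)⁻¹ * (2 * rho (n + 1)) ^ s := by
            rw [← h9]; gcongr
        _ = rho (n + 1) ^ s := by
            rw [ENNReal.mul_rpow_of_nonneg _ _ hs.le, ← mul_assoc,
              ENNReal.inv_mul_cancel h2s0 h2st, one_mul]
        _ ≤ ediam t ^ s := by gcongr
  by_contra hlt
  push Not at hlt
  have h1 : μH[s] A = 0 := by
    have := hausdorffMeasure_of_dimH_lt (s := A) (d := s.toNNReal) hlt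
    rwa [Real.coe_toNNReal _ hs.le] at this
  have h2 : (((2 : ℝ≥0∞) ^ s)⁻¹ • μ.restrict (E m)) A = 0 :=
    le_antisymm ((Measure.le_iff'.1 hle A).trans h1.le) zero_le
  rw [Measure.smul_apply, Measure.restrict_apply' (hEm m), smul_eq_mul] at h2
  have h3 : μ (A ∩ E m) = 0 := by
    rcases mul_eq_zero.1 h2 with h | h
    · exact absurd h (ENNReal.inv_ne_zero.2 h2st)
    · exact h
  apply hm
  refine measure_mono_null ?_ (measure_union_null h3 hA)
  intro z hz
  by_cases hzA : z ∈ A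
  · left; exact ⟨hzA, hz⟩
  · right; exact hzA

/-- Portmanteau inequality for finite measures, for a closed set inside an open set. -/
theorem le_liminf_of_subset [CompactSpace X] {μs : ℕ → FiniteMeasure X} {μ : FiniteMeasure X}
    (h : Tendsto μs atTop (𝓝 μ)) {F U : Set X} (hF : IsClosed F) (hU : IsOpen U) (hFU : F ⊆ U) :
    (μ : Measure X) F ≤ liminf (fun n => (μs n : Measure X) U) atTop := by
  obtain ⟨f, hf0, hf1, hf⟩ := exists_continuous_zero_one_of_isClosed hU.isClosed_compl hF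
    (by rw [disjoint_left]; intro x hx hxF; exact hx (hFU hxF))
  let g : C(X, ℝ≥0) := ⟨fun x => (f x).toNNReal, continuous_real_toNNReal.comp f.continuous⟩
  have h1 := FiniteMeasure.tendsto_iff_forall_lintegral_tendsto.1 h
    (BoundedContinuousFunction.mkOfCompact g)
  have h2 : (μ : Measure X) F ≤ ∫⁻ x, ((BoundedContinuousFunction.mkOfCompact g) x : ℝ≥0∞) ∂μ := by
    rw [← lintegral_indicator_one hF.measurableSet]
    refine lintegral_mono fun x => ?_
    by_cases hx : x ∈ F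
    · have : f x = 1 := hf1 hx
      simp [hx, g, this]
    · simp [hx]
  refine h2.trans ?_
  rw [← h1.liminf_eq]
  refine liminf_le_liminf (Eventually.of_forall fun n => ?_)
  rw [← lintegral_indicator_one hU.measurableSet]
  refine lintegral_mono fun x => ?_
  by_cases hx : x ∈ U
  · have : f x ≤ 1 := (hf x).2
    simp only [hx, g, indicator_of_mem, Pi.one_apply, BoundedContinuousFunction.mkOfCompact_apply,
      ContinuousMap.coe_mk]
    exact_mod_cast Real.toNNReal_le_one.2 this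
  · have : f x = 0 := hf0 hx
    simp [hx, g, this]

end Pool.Agent.H403Z.MC
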