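import Pool.Agent.H403Z.MC.Fin

/-!
The Gaussian law has the logarithmic moment; an explicit real law which does not.
-/

open MeasureTheory ProbabilityTheory Filter Topology Set Metric
open scoped ENNReal NNReal Real

namespace Pool.Agent.H403Z.MC

lemma gauss_integrable {Ω : Type*} {mΩ : MeasurableSpace Ω} {P : Measure Ω} {X : Ω → ℂ}
    (hX : Measurable X) (h : P.map X = (gaussianReal 0 1).map (fun x : ℝ => (x : ℂ))) :
    Integrable (fun ω => ‖X ω‖ ^ 2 * Real.posLog ‖X ω‖) P := by
  have hm : Measurable fun c : ℂ => ‖c‖ ^ 2 * Real.posLog ‖c‖ :=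
    (measurable_norm.pow_const 2).mul (Real.continuous_posLog.measurable.comp measurable_norm)
  have h1 : Integrable (fun c : ℂ => ‖c‖ ^ 2 * Real.posLog ‖c‖) (P.map X) := by
    rw [h, integrable_map_measure hm.aestronglyMeasurable
      Complex.measurable_ofReal.aemeasurable]
    have h2 : Integrable (fun x : ℝ => ‖x‖ ^ 3) (gaussianReal 0 1) := by
      have := (memLp_id_gaussianReal (μ := 0) (v := 1) 3).integrable_norm_pow (p := 3) (by norm_num)
      simpa using this
    refine h2.mono' (hm.comp Complex.measurable_ofReal).aestronglyMeasurable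
      (ae_of_all _ fun x => ?_)
    simp only [Function.comp_apply, Complex.norm_real]
    rw [Real.norm_of_nonneg (mul_nonneg (by positivity) Real.posLog_nonneg), pow_succ ‖x‖ 2]
    gcongr
    exact max_le (norm_nonneg _) (Real.log_le_self (norm_nonneg _))
  exact (integrable_map_measure hm.aestronglyMeasurable hX.aemeasurable).1 h1

/-- weights summing to one -/
noncomputable def wt (j : ℕ) : ℝ := 1 / ((j : ℝ) + 1) - 1 / ((j : ℝ) + 2)

lemma wt_eq (j : ℕ) : wt j = 1 / (((j : ℝ) + 1) * ((j : ℝ) + 2)) := by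
  unfold wt; field_simp; ring

lemma wt_nonneg (j : ℕ) : 0 ≤ wt j := by rw [wt_eq]; positivity

lemma hasSum_wt : HasSum wt 1 := by
  rw [hasSum_iff_tendsto_nat_of_nonneg wt_nonneg]
  have h1 : ∀ n : ℕ, ∑ j ∈ Finset.range n, wt j = 1 - 1 / ((n : ℝ) + 1) := by
    intro n
    induction n with
    | zero => simp
    | succ n ih => rw [Finset.sum_range_succ, ih, wt]; push_cast; ring
  simp only [h1]
  simpa using (tendsto_one_div_add_atTop_nhds_zero_nat (𝕜 := ℝ)).const_sub 1

lemma tsum_wt : ∑' j, ENNReal.ofReal (wt j) = 1 := by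
  rw [← ENNReal.ofReal_tsum_of_nonneg wt_nonneg hasSum_wt.summable, hasSum_wt.tsum_eq]; simp

/-- atoms -/
noncomputable def atm (j : ℕ) : ℝ := Real.exp ((j : ℝ) + 1)

/-- half of the mass of the pair of atoms -/
noncomputable def hp (j : ℕ) : ℝ≥0∞ := ENNReal.ofReal (wt j / atm j ^ 2 / 2)

/-- the heavy-tailed law -/
noncomputable def law : Measure ℝ :=
  (1 - ∑' j, 2 * hp j) • Measure.dirac 0 +
    Measure.sum fun j => hp j • (Measure.dirac (atm j) + Measure.dirac (-atm j))

lemma lintegral_law (f : ℝ → ℝ≥0∞) : ∫⁻ x, f x ∂law =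
    (1 - ∑' j, 2 * hp j) * f 0 + ∑' j, hp j * (f (atm j) + f (-atm j)) := by
  unfold law
  rw [lintegral_add_measure, lintegral_smul_measure, lintegral_dirac, lintegral_sum_measure]
  simp only [lintegral_smul_measure, lintegral_add_measure, lintegral_dirac, smul_eq_mul]

lemma two_hp (j : ℕ) (t : ℝ) (ht : 0 ≤ t) :
    hp j * (ENNReal.ofReal (atm j ^ 2 * t) + ENNReal.ofReal (atm j ^ 2 * t)) =
      ENNReal.ofReal (wt j * t) := by
  have h1 : 0 < atm j := Real.exp_pos _
  have h2 := wt_nonneg j
  unfold hp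
  rw [← ENNReal.ofReal_add (by positivity) (by positivity), ← ENNReal.ofReal_mul (by positivity)]
  congr 1
  field_simp
  ring

instance : IsProbabilityMeasure law := by
  constructor
  rw [← lintegral_one, lintegral_law]
  have h1 : ∑' j, 2 * hp j ≤ 1 := by
    rw [← tsum_wt]
    refine ENNReal.tsum_le_tsum fun j => ?_
    have h2 : 1 ≤ atm j := Real.one_le_exp (by positivity)
    have h3 := wt_nonneg j
    unfold hp
    rw [show (2 : ℝ≥0∞) = ENNReal.ofReal 2 by simp, ← ENNReal.ofReal_mul (by norm_num)]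
    apply ENNReal.ofReal_le_ofReal
    have : wt j / atm j ^ 2 ≤ wt j := div_le_self h3 (one_le_pow₀ h2)
    linarith
  have h2 : ∀ j, hp j * ((1 : ℝ≥0∞) + 1) = 2 * hp j := fun j => by rw [one_add_one_eq_two, mul_comm]
  simp only [h2, mul_one]
  exact tsub_add_cancel_of_le h1

lemma law_sq : ∫⁻ x, ENNReal.ofReal (x ^ 2) ∂law = 1 := by
  rw [lintegral_law, ← tsum_wt]
  have h : ∀ j, hp j * (ENNReal.ofReal (atm j ^ 2) + ENNReal.ofReal ((-atm j) ^ 2)) =
      ENNReal.ofReal (wt j) := by
    intro j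
    have := two_hp j 1 zero_le_one
    simpa using this
  simp only [h]
  simp

lemma law_int_sq : ∫ x, x ^ 2 ∂law = 1 := by
  rw [integral_eq_lintegral_of_nonneg_ae (ae_of_all _ fun x => sq_nonneg x)
    (measurable_id.pow_const 2).aestronglyMeasurable, law_sq]
  simp

lemma law_mean : ∫ x, x ∂law = 0 := by
  have h1 : law.map (fun x : ℝ => -x) = law := by
    refine Measure.ext_of_lintegral _ fun f hf => ?_
    rw [lintegral_map hf measurable_neg, lintegral_law, lintegral_law]
    simp only [neg_zero, neg_neg, add_comm]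
  have h2 : ∫ x, x ∂law = ∫ x, -x ∂law := by
    conv_lhs => rw [← h1]
    exact integral_map (φ := fun x : ℝ => -x) (f := fun x : ℝ => x)
      measurable_neg.aemeasurable measurable_id.aestronglyMeasurable
  rw [integral_neg] at h2
  linarith

lemma law_not_integrable : ¬ Integrable (fun x : ℝ => |x| ^ 2 * Real.posLog |x|) law := by
  intro hi
  have h1 := hi.2
  rw [hasFiniteIntegral_iff_ofReal (ae_of_all _ fun x =>
    mul_nonneg (by positivity) Real.posLog_nonneg), lintegral_law] at h1
  have h2 : ∀ j, hp j * (ENNReal.ofReal (|atm j| ^ 2 * Real.posLog |atm j|) +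
      ENNReal.ofReal (|-atm j| ^ 2 * Real.posLog |-atm j|)) =
      ENNReal.ofReal (1 / ((j : ℝ) + 2)) := by
    intro j
    have a1 : 1 ≤ atm j := Real.one_le_exp (by positivity)
    have a2 : |atm j| = atm j := abs_of_nonneg (by linarith)
    have a3 : Real.posLog (atm j) = (j : ℝ) + 1 := by
      rw [Real.posLog_eq_log (by rw [a2]; exact a1), atm, Real.log_exp]
    rw [abs_neg, a2, a3, two_hp j _ (by positivity), wt_eq]
    congr 1
    field_simp
  simp only [h2] at h1
  have h3 : ∑' j : ℕ, ENNReal.ofReal (1 / ((j : ℝ) + 2)) ≠ ⊤ :=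
    ne_top_of_le_ne_top h1.ne le_add_self
  have h4 := ENNReal.summable_toReal h3
  have h5 : ∀ j : ℕ, (ENNReal.ofReal (1 / ((j : ℝ) + 2))).toReal = 1 / ((j : ℝ) + 2) :=
    fun j => ENNReal.toReal_ofReal (by positivity)
  simp only [h5] at h4
  apply Real.not_summable_one_div_natCast
  rw [← summable_nat_add_iff 2]
  simpa using h4

theorem exists_example : ∃ (Ω : Type) (_ : MeasurableSpace Ω) (P : Measure Ω)
    (_ : IsProbabilityMeasure P) (X : ℕ → Ω → ℝ), IsCoeff P (fun k ω => (X k ω : ℂ)) ∧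
      ¬ Integrable (fun ω => ‖(X 0 ω : ℂ)‖ ^ 2 * Real.posLog ‖(X 0 ω : ℂ)‖) P := by
  have hmp : ∀ k : ℕ, MeasurePreserving (fun ω : ℕ → ℝ => ω k)
      (Measure.infinitePi fun _ : ℕ => law) law := fun k =>
    measurePreserving_eval_infinitePi (fun _ : ℕ => law) k
  refine ⟨ℕ → ℝ, inferInstance, Measure.infinitePi fun _ : ℕ => law, inferInstance,
    fun k ω => ω k, ⟨?_, ?_, ?_, ?_, ?_⟩, ?_⟩
  · intro k
    exact Complex.measurable_ofReal.comp (measurable_pi_apply k)
  · exact iIndepFun_infinitePi (P := fun _ : ℕ => law) (X := fun _ (x : ℝ) => (x : ℂ))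
      fun _ => Complex.measurable_ofReal
  · intro k
    have h1 : IdentDistrib (fun ω : ℕ → ℝ => ω k) (fun ω : ℕ → ℝ => ω 0)
        (Measure.infinitePi fun _ : ℕ => law) (Measure.infinitePi fun _ : ℕ => law) :=
      ⟨(hmp k).measurable.aemeasurable, (hmp 0).measurable.aemeasurable,
        by rw [(hmp k).map_eq, (hmp 0).map_eq]⟩
    exact h1.comp Complex.measurable_ofReal
  · rw [integral_complex_ofReal]
    have h1 : ∫ ω : ℕ → ℝ, ω 0 ∂(Measure.infinitePi fun _ : ℕ => law) = ∫ x, x ∂law := by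
      conv_rhs => rw [← (hmp 0).map_eq]
      exact (integral_map (f := fun x : ℝ => x) (hmp 0).measurable.aemeasurable
        measurable_id.aestronglyMeasurable).symm
    rw [h1, law_mean]; simp
  · have h1 : ∫ ω : ℕ → ℝ, ω 0 ^ 2 ∂(Measure.infinitePi fun _ : ℕ => law) = ∫ x, x ^ 2 ∂law := by
      conv_rhs => rw [← (hmp 0).map_eq]
      exact (integral_map (f := fun x : ℝ => x ^ 2) (hmp 0).measurable.aemeasurable
        (measurable_id.pow_const 2).aestronglyMeasurable).symm
    simp only [Complex.norm_real, Real.norm_eq_abs, sq_abs]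
    rw [h1, law_int_sq]
  · intro hi
    apply law_not_integrable
    have hm : Measurable fun x : ℝ => |x| ^ 2 * Real.posLog |x| :=
      (measurable_id.abs.pow_const 2).mul (Real.continuous_posLog.measurable.comp measurable_id.abs)
    rw [← (hmp 0).map_eq, integrable_map_measure hm.aestronglyMeasurable
      (hmp 0).measurable.aemeasurable]
    simpa [Function.comp_def] using hi

end Pool.Agent.H403Z.MC
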