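import Pool.Agent.H403Z.MC.Deg
import Pool.Agent.H403Z.MC.Dim

/-!
The dimension of the limit measure.
-/

open MeasureTheory ProbabilityTheory Filter Topology Set Metric
open scoped ENNReal NNReal Real
open Pool.Agent.Results.MP_ab74d4_pr.ChaosConvergence

set_option linter.unusedSectionVars false

namespace Pool.Agent.H403Z.MC

/-- `μlim` is the almost sure weak (= vague) limit of the measures `μ_n` with density
`exp (γ Re P_n - (γ²/2) Var Re P_n)` with respect to arc length. -/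
def IsChaosLimit {Ω : Type*} {mΩ : MeasurableSpace Ω} (P : Measure Ω) (ξ : ℕ → Ω → ℂ) (γ : ℝ)
    (μlim : Ω → FiniteMeasure S1) : Prop :=
  ∃ μ : ℕ → Ω → FiniteMeasure S1,
    (∀ n ω, (μ n ω : Measure S1) =
      arcLength.withDensity (fun z => ENNReal.ofReal (chaosDensity P ξ γ n ω z))) ∧
    ∀ᵐ ω ∂P, Tendsto (fun n => μ n ω) atTop (𝓝 (μlim ω))

variable {Ω : Type*} {mΩ : MeasurableSpace Ω} {P : Measure Ω} [IsProbabilityMeasure P]
  {ξ : ℕ → Ω → ℂ}

/-- cells at scale `2^(-n)` -/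
def cell (n j : ℕ) : Set S1 := closedBall (net n j) (2 / 2 ^ n)

open Classical in
/-- indices of the cells away from the real axis -/
noncomputable def JJ (η : ℝ) (n : ℕ) : Finset ℕ :=
  (Finset.range (8 * 2 ^ n)).filter fun j =>
    3 / ((2 ^ n : ℕ) : ℝ) ≤ η / 2 ∧ η ≤ |((net n j : S1) : ℂ).im|

lemma IsCoeff.limit_le (H : IsCoeff P ξ) {γ : ℝ} {μlim : Ω → FiniteMeasure S1}
    (hl : IsChaosLimit P ξ γ μlim) :
    ∀ᵐ ω ∂P, ∃ c : ℝ≥0∞, c ≠ ⊤ ∧ (∀ F U : Set S1, IsClosed F → IsOpen U → F ⊆ U →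
      (μlim ω : Measure S1) F ≤ c * liminf (fun n => nu P ξ γ (Finset.range n) U ω) atTop) ∧
      ∀ F U : Set S1, IsClosed F → IsOpen U → U ⊆ F → (μlim ω : Measure S1) F = 0 →
        Tendsto (fun n => nu P ξ γ (Finset.range n) U ω) atTop (𝓝 0) := by
  obtain ⟨μ, hμ, hlim⟩ := hl
  filter_upwards [hlim, H.compare γ] with ω h1 h2
  obtain ⟨c, hc, h2⟩ := h2
  refine ⟨c, hc, fun F U hF hU hFU => ?_, fun F U hF hU hUF h0 => ?_⟩
  · refine (le_liminf_of_subset h1 hF hU hFU).trans ?_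
    rw [← ENNReal.liminf_const_mul_of_ne_top hc]
    refine liminf_le_liminf ?_
    filter_upwards [h2] with n hn
    rw [hμ]
    exact (hn U hU.measurableSet).1
  · have h3 := FiniteMeasure.limsup_measure_closed_le_of_tendsto h1 hF
    rw [h0] at h3
    have h4 : Tendsto (fun n => (μ n ω : Measure S1) F) atTop (𝓝 0) :=
      tendsto_of_le_liminf_of_limsup_le zero_le h3
    have h5 := ENNReal.Tendsto.const_mul (a := c) h4 (Or.inr hc)
    rw [mul_zero] at h5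
    refine tendsto_of_tendsto_of_tendsto_of_le_of_le' tendsto_const_nhds h5
      (Eventually.of_forall fun _ => zero_le) ?_
    filter_upwards [h2] with n hn
    refine (hn U hU.measurableSet).2.trans ?_
    rw [← hμ]
    gcongr

theorem IsCoeff.cell_sum (H : IsCoeff P ξ) {γ : ℝ} (hγ : γ ^ 2 < 2) {μlim : Ω → FiniteMeasure S1}
    (hl : IsChaosLimit P ξ γ μlim) {p : ℝ} (hp0 : 0 < p) (hp2 : p ≤ 2) {η : ℝ} (hη : 0 < η)
    {t : ℝ} (ht : 1 + (γ ^ 2 * (p ^ 2 - p) / 4 - p) < t) :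
    ∀ᵐ ω ∂P, ∑' n, rho n ^ t * ∑ j ∈ JJ η n, (μlim ω : Measure S1) (cell n j) ^ p ≠ ⊤ := by
  obtain ⟨C, hC, hCle⟩ := H.moment hγ hp0.le hp2 hη
  set e : ℝ := γ ^ 2 * (p ^ 2 - p) / 4 - p with he
  let Y : ℕ → ℕ → Ω → ℝ≥0∞ := fun n j ω => liminf (fun m =>
    nu P ξ γ (Finset.range m) (ball (net n j) (3 / ((2 ^ n : ℕ) : ℝ))) ω ^ p) atTop
  have hYm : ∀ n j, Measurable (Y n j) := fun n j =>
    Measurable.liminf fun m => (measurable_nu γ _ _ fun k _ => H.meas k).pow_const p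
  have hY : ∀ n, ∀ j ∈ JJ η n, ∫⁻ ω, Y n j ω ∂P ≤ C * ENNReal.ofReal (((2 ^ n : ℕ) : ℝ) ^ e) := by
    intro n j hj
    obtain ⟨-, h1, h2⟩ := Finset.mem_filter.1 hj
    refine (lintegral_liminf_le fun m =>
      (measurable_nu γ _ _ fun k _ => H.meas k).pow_const p).trans ?_
    refine liminf_le_of_frequently_le' (Eventually.frequently ?_)
    filter_upwards [eventually_ge_atTop (2 ^ n)] with m hm
    exact hCle (2 ^ n) Nat.one_le_two_pow h1 _ h2 m hm
  let W : Ω → ℝ≥0∞ := fun ω => ∑' n, rho n ^ t * ∑ j ∈ JJ η n, Y n j ω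
  have hWn : ∀ n, Measurable fun ω => rho n ^ t * ∑ j ∈ JJ η n, Y n j ω := fun n =>
    (Finset.measurable_sum _ fun j _ => hYm n j).const_mul _
  have hW : ∫⁻ ω, W ω ∂P ≠ ⊤ := by
    simp only [W]
    rw [lintegral_tsum fun n => (hWn n).aemeasurable]
    set r : ℝ := (2 : ℝ) ^ (1 + e - t) with hr
    have hr0 : 0 ≤ r := by positivity
    have hr1 : r < 1 := Real.rpow_lt_one_of_one_lt_of_neg (by norm_num) (by linarith)
    have h1 : ∀ n, ∫⁻ ω, rho n ^ t * ∑ j ∈ JJ η n, Y n j ω ∂P ≤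
        (8 * C) * ENNReal.ofReal (r ^ n) := by
      intro n
      rw [lintegral_const_mul _ (Finset.measurable_sum _ fun j _ => hYm n j),
        lintegral_finsetSum _ fun j _ => hYm n j]
      have h2 : ∑ j ∈ JJ η n, ∫⁻ ω, Y n j ω ∂P ≤
          ((8 * 2 ^ n : ℕ) : ℝ≥0∞) * (C * ENNReal.ofReal (((2 ^ n : ℕ) : ℝ) ^ e)) := by
        refine (Finset.sum_le_card_nsmul _ _ _ (hY n)).trans ?_
        rw [nsmul_eq_mul]
        gcongr
        exact (Finset.card_filter_le _ _).trans (Finset.card_range _).le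
      refine (mul_le_mul_right h2 _).trans (le_of_eq ?_)
      have h3 : rho n ^ t * ENNReal.ofReal ((2 : ℝ) ^ n) * ENNReal.ofReal (((2 ^ n : ℕ) : ℝ) ^ e) =
          ENNReal.ofReal (r ^ n) := by
        rw [rho_eq, ENNReal.ofReal_rpow_of_pos (by positivity),
          ← ENNReal.ofReal_mul (by positivity), ← ENNReal.ofReal_mul (by positivity)]
        congr 1
        push_cast
        rw [hr, one_div, inv_pow, ← Real.rpow_natCast, ← Real.rpow_natCast,
          ← Real.rpow_neg (by norm_num), ← Real.rpow_mul (by norm_num),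
          ← Real.rpow_mul (by norm_num), ← Real.rpow_mul (by norm_num),
          ← Real.rpow_add (by norm_num), ← Real.rpow_add (by norm_num)]
        congr 1
        ring
      have h4 : ((8 * 2 ^ n : ℕ) : ℝ≥0∞) = 8 * ENNReal.ofReal ((2 : ℝ) ^ n) := by
        rw [ENNReal.ofReal_pow (by norm_num)]
        push_cast
        simp
      rw [h4, ← h3]
      ring
    refine ne_top_of_le_ne_top ?_ (ENNReal.tsum_le_tsum h1)
    rw [ENNReal.tsum_mul_left, ← ENNReal.ofReal_tsum_of_nonneg (fun n => by positivity)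
      (summable_geometric_of_lt_one hr0 hr1)]
    exact ENNReal.mul_ne_top (ENNReal.mul_ne_top (by simp) hC) ENNReal.ofReal_ne_top
  have hWm : Measurable W := Measurable.tsum hWn
  filter_upwards [ae_lt_top hWm hW, H.limit_le hl] with ω h1 h2
  obtain ⟨c, hc, h2, -⟩ := h2
  have h3 : ∀ n j, (μlim ω : Measure S1) (cell n j) ^ p ≤ c ^ p * Y n j ω := by
    intro n j
    have h4 := h2 (cell n j) (ball (net n j) (3 / ((2 ^ n : ℕ) : ℝ))) isClosed_closedBall
      isOpen_ball (closedBall_subset_ball (by push_cast; gcongr; norm_num))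
    refine (ENNReal.rpow_le_rpow h4 hp0.le).trans (le_of_eq ?_)
    rw [ENNReal.mul_rpow_of_nonneg _ _ hp0.le]
    congr 1
    exact Monotone.map_liminf_of_continuousAt (f := fun x : ℝ≥0∞ => x ^ p)
      (fun a b hab => ENNReal.rpow_le_rpow hab hp0.le) _
      ENNReal.continuous_rpow_const.continuousAt
  refine ne_top_of_le_ne_top (b := c ^ p * W ω)
    (ENNReal.mul_ne_top (ENNReal.rpow_ne_top_of_nonneg hp0.le hc) h1.ne) ?_
  simp only [W]
  rw [← ENNReal.tsum_mul_left]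
  refine ENNReal.tsum_le_tsum fun n => ?_
  rw [mul_left_comm, Finset.mul_sum (JJ η n) (fun j => Y n j ω)]
  gcongr with j hj
  exact h3 n j

lemma abs_im_sub_le (z w : S1) : |(z : ℂ).im| - dist z w ≤ |(w : ℂ).im| := by
  have h1 := Complex.abs_im_le_norm ((z : ℂ) - w)
  rw [Complex.sub_im] at h1
  have h2 := abs_sub_abs_le_abs_sub (z : ℂ).im (w : ℂ).im
  rw [Subtype.dist_eq, dist_eq_norm]
  linarith

lemma exists_cell {η : ℝ} (n : ℕ) (hn : 3 / (2 : ℝ) ^ n ≤ η / 2) (z : S1)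
    (hz : η + 1 / 2 ^ n ≤ |(z : ℂ).im|) :
    ∃ j ∈ JJ η n, closedBall z ((1 / 2 : ℝ) ^ n) ⊆ cell n j := by
  obtain ⟨j, hj, hd⟩ := exists_net n z
  refine ⟨j, Finset.mem_filter.2 ⟨Finset.mem_range.2 hj, by push_cast; exact hn, ?_⟩, ?_⟩
  · linarith [abs_im_sub_le z (net n j)]
  · apply closedBall_subset_closedBall'
    rw [one_div, inv_pow, ← one_div]
    have : (2 : ℝ) / 2 ^ n = 1 / 2 ^ n + 1 / 2 ^ n := by ring
    linarith

theorem IsCoeff.dim_upper (H : IsCoeff P ξ) {γ : ℝ} (hγ : γ ^ 2 < 2)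
    {μlim : Ω → FiniteMeasure S1} (hl : IsChaosLimit P ξ γ μlim) {s : ℝ}
    (hs : 1 - γ ^ 2 / 4 < s) :
    ∀ᵐ ω ∂P, measDim (μlim ω : Measure S1) ≤ ENNReal.ofReal s := by
  set q : ℝ := min (1 / 2) (s - (1 - γ ^ 2 / 4)) with hq
  have hq0 : 0 < q := lt_min (by norm_num) (by linarith)
  have hq1 : q ≤ 1 / 2 := min_le_left _ _
  have hq2 : q ≤ s - (1 - γ ^ 2 / 4) := min_le_right _ _
  have hs0 : 0 < s := by nlinarith
  have ht : 1 + (γ ^ 2 * ((1 - q) ^ 2 - (1 - q)) / 4 - (1 - q)) < q * s := by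
    have h1 : γ ^ 2 * q / 4 < s - (1 - γ ^ 2 / 4) := by nlinarith
    nlinarith
  have h1 : ∀ m : ℕ, ∀ᵐ ω ∂P, ∑' n, rho n ^ (q * s) * ∑ j ∈ JJ (1 / ((m : ℝ) + 1)) n,
      (μlim ω : Measure S1) (cell n j) ^ (1 - q) ≠ ⊤ := fun m =>
    H.cell_sum hγ hl (by linarith) (by linarith) (by positivity) ht
  filter_upwards [ae_all_iff.2 h1] with ω hω
  have h2 : ∀ m : ℕ, ∃ A : Set S1, MeasurableSet A ∧ dimH A ≤ ENNReal.ofReal s ∧
      (μlim ω : Measure S1) ({z | ∀ᶠ n in atTop, ∃ j ∈ JJ (1 / ((m : ℝ) + 1)) n,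
        z ∈ cell n j} \ A) = 0 := by
    intro m
    refine upper_dim _ _ cell (fun n j => measurableSet_closedBall) 4 (by simp) ?_ s q hs0 hq0
      (by linarith) (hω m)
    intro n j
    refine (ediam_le_of_forall_dist_le (C := 4 * (1 / 2) ^ n) ?_).trans ?_
    · intro x hx y hy
      have h3 := dist_triangle_right x y (net n j)
      have hx' : dist x (net n j) ≤ 2 / 2 ^ n := hx
      have hy' : dist y (net n j) ≤ 2 / 2 ^ n := hy
      have : (4 : ℝ) * (1 / 2) ^ n = 2 / 2 ^ n + 2 / 2 ^ n := by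
        rw [one_div, inv_pow]; ring
      linarith
    · rw [rho_eq, ENNReal.ofReal_mul (by norm_num)]
      simp
  choose A hA1 hA2 hA3 using h2
  refine (measDim_le (A := {z : S1 | (z : ℂ).im = 0} ∪ ⋃ m, A m)
    (finite_real.measurableSet.union (MeasurableSet.iUnion hA1)) ?_).trans ?_
  · refine measure_mono_null ?_ (measure_iUnion_null hA3)
    intro z hz
    rw [mem_compl_iff, mem_union, not_or] at hz
    have hz0 : 0 < |(z : ℂ).im| := abs_pos.2 hz.1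
    obtain ⟨m, hm⟩ := exists_nat_one_div_lt (half_pos hz0)
    refine mem_iUnion.2 ⟨m, ?_, fun h => hz.2 (mem_iUnion.2 ⟨m, h⟩)⟩
    have h3 : Tendsto (fun n : ℕ => 3 / (2 : ℝ) ^ n) atTop (𝓝 0) :=
      tendsto_const_nhds.div_atTop (tendsto_pow_atTop_atTop_of_one_lt (by norm_num))
    filter_upwards [h3.eventually (ge_mem_nhds
      (show 0 < 1 / ((m : ℝ) + 1) / 2 by positivity))] with n hn
    have h4 : 1 / (2 : ℝ) ^ n ≤ 3 / 2 ^ n := by gcongr; norm_num
    have h5 : 0 < 1 / ((m : ℝ) + 1) := by positivity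
    obtain ⟨j, hj, hsub⟩ := exists_cell n hn z (by linarith)
    exact ⟨j, hj, hsub (mem_closedBall_self (by positivity))⟩
  · rw [dimH_union, finite_real.dimH_zero, dimH_iUnion]
    exact max_le zero_le (iSup_le hA2)

theorem IsCoeff.ne_zero (H : IsCoeff P ξ) {γ : ℝ} (hγ : γ ^ 2 < 2)
    {μlim : Ω → FiniteMeasure S1} (hl : IsChaosLimit P ξ γ μlim) (hsum : Summable (tl P ξ)) :
    ∀ᵐ ω ∂P, (μlim ω : Measure S1) (closedBall ptI (3 / 8)) ≠ 0 := by
  filter_upwards [H.limit_le hl, H.ae_not_zero hγ hsum] with ω h1 h2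
  obtain ⟨c, -, -, h1⟩ := h1
  intro h0
  exact h2 (h1 _ _ isClosed_closedBall isOpen_ball ball_subset_closedBall h0)

theorem IsCoeff.dim_lower (H : IsCoeff P ξ) {γ : ℝ} (hγ : γ ^ 2 < 2)
    {μlim : Ω → FiniteMeasure S1} (hl : IsChaosLimit P ξ γ μlim) (hsum : Summable (tl P ξ))
    {s : ℝ} (hs0 : 0 < s) (hs : s < 1 - γ ^ 2 / 4) :
    ∀ᵐ ω ∂P, ENNReal.ofReal s ≤ measDim (μlim ω : Measure S1) := by
  set q : ℝ := min (1 / 2) ((1 - γ ^ 2 / 4) - s) with hq
  have hq0 : 0 < q := lt_min (by norm_num) (by linarith)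
  have hq1 : q ≤ 1 / 2 := min_le_left _ _
  have hq2 : q ≤ (1 - γ ^ 2 / 4) - s := min_le_right _ _
  have ht : 1 + (γ ^ 2 * ((1 + q) ^ 2 - (1 + q)) / 4 - (1 + q)) < -(q * s) := by
    have h1 : γ ^ 2 * q / 4 < (1 - γ ^ 2 / 4) - s := by nlinarith
    nlinarith
  filter_upwards [H.cell_sum hγ hl (p := 1 + q) (by linarith) (by linarith) (η := 1 / 2)
    (by norm_num) ht, H.ne_zero hγ hl hsum] with ω h1 h2
  refine le_measDim fun A hA => ?_
  refine lower_dim _ _ cell (fun n j => measurableSet_closedBall) s q hs0 hq0 h1 _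
    measurableSet_closedBall h2 4 ?_ A hA
  intro n hn z hz
  have h3 : (16 : ℝ) ≤ 2 ^ n := by
    calc (16 : ℝ) = 2 ^ 4 := by norm_num
      _ ≤ 2 ^ n := pow_le_pow_right₀ (by norm_num) hn
  have h4 : 1 / (2 : ℝ) ^ n ≤ 1 / 16 := by gcongr
  have h5 : 3 / (2 : ℝ) ^ n ≤ 3 / 16 := by gcongr
  refine exists_cell n (by linarith) z ?_
  have h6 := abs_im_sub_le ptI z
  rw [ptI_im, abs_one, dist_comm] at h6
  have h7 : dist z ptI ≤ 3 / 8 := hz
  linarith

theorem IsCoeff.dim_eq (H : IsCoeff P ξ) {γ : ℝ} (hγ : γ ^ 2 < 2)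
    {μlim : Ω → FiniteMeasure S1} (hl : IsChaosLimit P ξ γ μlim)
    (hi : Integrable (fun ω => ‖ξ 0 ω‖ ^ 2 * Real.posLog ‖ξ 0 ω‖) P) :
    ∀ᵐ ω ∂P, measDim (μlim ω : Measure S1) = ENNReal.ofReal (1 - γ ^ 2 / 4) := by
  have hsum := H.summable_iff.2 hi
  set d : ℝ := 1 - γ ^ 2 / 4 with hd
  have hd0 : 0 < d := by rw [hd]; linarith
  have h1 : ∀ l : ℕ, ∀ᵐ ω ∂P, measDim (μlim ω : Measure S1) ≤
      ENNReal.ofReal (d + 1 / ((l : ℝ) + 1)) := fun l =>
    H.dim_upper hγ hl (by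
      have : 0 < 1 / ((l : ℝ) + 1) := by positivity
      linarith)
  have h2 : ∀ l : ℕ, ∀ᵐ ω ∂P, ENNReal.ofReal (d - d / 2 * (1 / ((l : ℝ) + 1))) ≤
      measDim (μlim ω : Measure S1) := by
    intro l
    have a1 : 0 < 1 / ((l : ℝ) + 1) := by positivity
    have a2 : 1 / ((l : ℝ) + 1) ≤ 1 := by
      rw [div_le_one (by positivity)]; linarith [(Nat.cast_nonneg l : (0 : ℝ) ≤ l)]
    exact H.dim_lower hγ hl hsum (by nlinarith) (by nlinarith)
  filter_upwards [ae_all_iff.2 h1, ae_all_iff.2 h2] with ω h3 h4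
  have h5 := tendsto_one_div_add_atTop_nhds_zero_nat (𝕜 := ℝ)
  apply le_antisymm
  · have h6 := ENNReal.tendsto_ofReal (h5.const_add d)
    rw [add_zero] at h6
    exact ge_of_tendsto' h6 h3
  · have h6 := ENNReal.tendsto_ofReal ((h5.const_mul (d / 2)).const_sub d)
    rw [mul_zero, sub_zero] at h6
    exact le_of_tendsto' h6 h4

theorem IsCoeff.limit_zero (H : IsCoeff P ξ) {γ : ℝ} (hγ : γ ≠ 0)
    {μlim : Ω → FiniteMeasure S1} (hl : IsChaosLimit P ξ γ μlim)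
    (hi : ¬ Integrable (fun ω => ‖ξ 0 ω‖ ^ 2 * Real.posLog ‖ξ 0 ω‖) P) :
    ∀ᵐ ω ∂P, (μlim ω : Measure S1) = 0 := by
  filter_upwards [H.limit_le hl, H.ae_liminf_zero hγ fun h => hi (H.summable_iff.1 h)]
    with ω h1 h2
  obtain ⟨c, -, h1, -⟩ := h1
  have h3 := h1 univ univ isClosed_univ isOpen_univ Subset.rfl
  rw [h2, mul_zero] at h3
  exact Measure.measure_univ_eq_zero.1 (le_antisymm h3 zero_le)

theorem IsCoeff.exists_limit (H : IsCoeff P ξ) (γ : ℝ) : ∃ μlim, IsChaosLimit P ξ γ μlim := by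
  obtain ⟨μ, μlim, h1, -, -, h4, -⟩ :=
    Pool.Agent.Results.MP_ab74d4_pr.ChaosConvergence.result P ξ H.meas H.indep H.ident H.mean
      H.var γ
  exact ⟨μlim, μ, h1, h4⟩

end Pool.Agent.H403Z.MC
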