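import Pool.Agent.Results.MP_ab74d4_pr.ChaosConvergence

/-!
Geometry of the circle, exponential sums, and the covariance estimates.
-/

open MeasureTheory Filter Topology Set Metric
open scoped ENNReal NNReal Real
open Pool.Agent.Results.MP_ab74d4_pr.ChaosConvergence

namespace Pool.Agent.H403Z.MC

lemma norm_S1 (z : S1) : ‖(z : ℂ)‖ = 1 := by simpa using z.2

lemma dist_expPoint (a b : ℝ) : dist (expPoint a) (expPoint b) = |2 * Real.sin ((a - b) / 2)| := by
  rw [Subtype.dist_eq, dist_eq_norm]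
  show ‖Complex.exp (a * Complex.I) - Complex.exp (b * Complex.I)‖ = _
  have h : Complex.exp (a * Complex.I) - Complex.exp (b * Complex.I) =
      Complex.exp (b * Complex.I) * (Complex.exp (Complex.I * ((a - b : ℝ) : ℂ)) - 1) := by
    rw [mul_sub, ← Complex.exp_add, mul_one]
    congr 2
    push_cast; ring
  rw [h, norm_mul, Complex.norm_exp_ofReal_mul_I, one_mul, Complex.norm_exp_I_mul_ofReal_sub_one,
    Real.norm_eq_abs]

lemma dist_expPoint_le (a b : ℝ) : dist (expPoint a) (expPoint b) ≤ |a - b| := by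
  rw [dist_expPoint, abs_mul, abs_two]
  have := Real.abs_sin_le_abs (x := (a - b) / 2)
  rw [abs_div, abs_two] at this
  linarith

lemma exists_expPoint (z : S1) : ∃ φ ∈ Ioc (-π) π, expPoint φ = z := by
  refine ⟨Complex.arg z, ⟨Complex.neg_pi_lt_arg _, Complex.arg_le_pi _⟩, ?_⟩
  apply Subtype.ext
  show Complex.exp ((Complex.arg z : ℝ) * Complex.I) = z
  have := Complex.norm_mul_exp_arg_mul_I (z : ℂ)
  rwa [norm_S1, Complex.ofReal_one, one_mul] at this

lemma abs_le_of_sin {t r : ℝ} (ht : |t| ≤ π) (h : |2 * Real.sin (t / 2)| < r) : |t| < π * r / 2 := by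
  have h1 := Real.mul_abs_le_abs_sin (x := t / 2) (by rw [abs_div, abs_two]; linarith)
  rw [abs_mul, abs_two] at h
  rw [abs_div, abs_two] at h1
  have hp := Real.pi_pos
  have h2 : 2 / π * (|t| / 2) = |t| / π := by field_simp
  rw [h2, div_le_iff₀ hp] at h1
  nlinarith

lemma arc_ball_le (z : S1) (r : ℝ) (hr : 0 ≤ r) :
    arcLength (ball z r) ≤ ENNReal.ofReal (10 * r) := by
  obtain ⟨φ, hφ, rfl⟩ := exists_expPoint z
  unfold arcLength
  rw [Measure.map_apply continuous_expPoint.measurable measurableSet_ball,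
    Measure.restrict_apply (continuous_expPoint.measurable measurableSet_ball)]
  have hp := Real.pi_pos
  have hsub : expPoint ⁻¹' ball (expPoint φ) r ∩ Ioc (-π) π ⊆
      (Ioo (φ - π * r / 2) (φ + π * r / 2) ∪ Ioo (φ + 2 * π - π * r / 2) (φ + 2 * π + π * r / 2)) ∪
        Ioo (φ - 2 * π - π * r / 2) (φ - 2 * π + π * r / 2) := by
    rintro θ ⟨h1, h2⟩
    rw [mem_preimage, mem_ball, dist_expPoint] at h1
    by_cases ha : |θ - φ| ≤ π
    · left; left
      have := abs_lt.1 (abs_le_of_sin ha h1)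
      constructor <;> linarith [this.1, this.2]
    · rcases lt_or_ge π (θ - φ) with hb | hb
      · left; right
        have e : Real.sin ((θ - φ - 2 * π) / 2) = -Real.sin ((θ - φ) / 2) := by
          rw [show (θ - φ - 2 * π) / 2 = (θ - φ) / 2 - π by ring, Real.sin_sub_pi]
        have h3 : |θ - φ - 2 * π| ≤ π := by
          rw [abs_le]; constructor <;> linarith [h2.2, hφ.1]
        have := abs_lt.1 (abs_le_of_sin h3 (r := r) (by rw [e, mul_neg, abs_neg]; exact h1))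
        constructor <;> linarith [this.1, this.2]
      · right
        have hc : θ - φ < -π := by
          by_contra hcon
          exact ha (abs_le.2 ⟨not_lt.1 hcon, hb⟩)
        have e : Real.sin ((θ - φ + 2 * π) / 2) = -Real.sin ((θ - φ) / 2) := by
          rw [show (θ - φ + 2 * π) / 2 = (θ - φ) / 2 + π by ring, Real.sin_add_pi]
        have h3 : |θ - φ + 2 * π| ≤ π := by
          rw [abs_le]; constructor <;> linarith [h2.1, hφ.2]
        have := abs_lt.1 (abs_le_of_sin h3 (r := r) (by rw [e, mul_neg, abs_neg]; exact h1))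
        constructor <;> linarith [this.1, this.2]
  refine (measure_mono hsub).trans ?_
  refine (measure_union_le _ _).trans ?_
  refine (add_le_add_left (measure_union_le _ _) _).trans ?_
  rw [Real.volume_Ioo, Real.volume_Ioo, Real.volume_Ioo,
    ← ENNReal.ofReal_add (by nlinarith) (by nlinarith),
    ← ENNReal.ofReal_add (by nlinarith) (by nlinarith)]
  apply ENNReal.ofReal_le_ofReal
  have := Real.pi_lt_d2
  nlinarith

lemma arc_singleton (z : S1) : arcLength {z} = 0 := by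
  apply le_antisymm _ zero_le
  have h : Tendsto (fun r : ℝ => ENNReal.ofReal (10 * r)) (𝓝[>] 0) (𝓝 0) := by
    have h1 : Tendsto (fun r : ℝ => ENNReal.ofReal (10 * r)) (𝓝 0) (𝓝 (ENNReal.ofReal (10 * 0))) :=
      (ENNReal.continuous_ofReal.comp (continuous_const.mul continuous_id)).tendsto 0
    simpa using h1.mono_left nhdsWithin_le_nhds
  refine ge_of_tendsto h ?_
  filter_upwards [self_mem_nhdsWithin] with r hr
  exact (measure_mono (singleton_subset_iff.2 (mem_ball_self hr))).trans (arc_ball_le z r (le_of_lt hr))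

/-- the point `i` -/
noncomputable def ptI : S1 := expPoint (π / 2)

lemma ptI_im : (ptI : ℂ).im = 1 := by
  show (Complex.exp (((π / 2 : ℝ) : ℂ) * Complex.I)).im = 1
  rw [Complex.exp_ofReal_mul_I_im, Real.sin_pi_div_two]

lemma arc_ball_ne_zero : arcLength (ball ptI (3 / 8)) ≠ 0 := by
  unfold arcLength
  rw [Measure.map_apply continuous_expPoint.measurable measurableSet_ball,
    Measure.restrict_apply (continuous_expPoint.measurable measurableSet_ball)]
  have hp := Real.pi_gt_three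
  have hsub : Ioo (π / 2 - 1 / 4) (π / 2 + 1 / 4) ⊆ expPoint ⁻¹' ball ptI (3 / 8) ∩ Ioc (-π) π := by
    intro θ hθ
    refine ⟨?_, by constructor <;> linarith [hθ.1, hθ.2]⟩
    rw [mem_preimage, mem_ball]
    refine (dist_expPoint_le _ _).trans_lt ?_
    rw [abs_lt]; constructor <;> linarith [hθ.1, hθ.2]
  intro h0
  have := measure_mono_null hsub h0
  rw [Real.volume_Ioo] at this
  norm_num at this

lemma arc_real_null : arcLength {z : S1 | (z : ℂ).im = 0} = 0 := by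
  have hsub : {z : S1 | (z : ℂ).im = 0} ⊆ {expPoint 0} ∪ {expPoint π} := by
    intro z hz
    have hz' : (z : ℂ).im = 0 := hz
    have h1 : (z : ℂ).re ^ 2 = 1 := by
      have := norm_S1 z
      have h2 := Complex.sq_norm (z : ℂ)
      rw [this, Complex.normSq_apply, hz'] at h2
      nlinarith
    have h3 : (z : ℂ).re = 1 ∨ (z : ℂ).re = -1 := by
      have : ((z : ℂ).re - 1) * ((z : ℂ).re + 1) = 0 := by nlinarith
      rcases mul_eq_zero.1 this with h | h
      · left; linarith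
      · right; linarith
    rcases h3 with h | h
    · left
      apply Subtype.ext
      show (z : ℂ) = Complex.exp (((0 : ℝ) : ℂ) * Complex.I)
      apply Complex.ext <;> simp [h, hz']
    · right
      apply Subtype.ext
      show (z : ℂ) = Complex.exp (((π : ℝ) : ℂ) * Complex.I)
      rw [Complex.exp_pi_mul_I]
      apply Complex.ext <;> simp [h, hz']
  exact measure_mono_null hsub (measure_union_null (arc_singleton _) (arc_singleton _))

lemma finite_real : ({z : S1 | (z : ℂ).im = 0}).Finite := by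
  have hsub : {z : S1 | (z : ℂ).im = 0} ⊆ {expPoint 0} ∪ {expPoint π} := by
    intro z hz
    have hz' : (z : ℂ).im = 0 := hz
    have h1 : (z : ℂ).re ^ 2 = 1 := by
      have := norm_S1 z
      have h2 := Complex.sq_norm (z : ℂ)
      rw [this, Complex.normSq_apply, hz'] at h2
      nlinarith
    have h3 : (z : ℂ).re = 1 ∨ (z : ℂ).re = -1 := by
      have : ((z : ℂ).re - 1) * ((z : ℂ).re + 1) = 0 := by nlinarith
      rcases mul_eq_zero.1 this with h | h
      · left; linarith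
      · right; linarith
    rcases h3 with h | h
    · left
      apply Subtype.ext
      show (z : ℂ) = Complex.exp (((0 : ℝ) : ℂ) * Complex.I)
      apply Complex.ext <;> simp [h, hz']
    · right
      apply Subtype.ext
      show (z : ℂ) = Complex.exp (((π : ℝ) : ℂ) * Complex.I)
      rw [Complex.exp_pi_mul_I]
      apply Complex.ext <;> simp [h, hz']
  exact ((finite_singleton _).union (finite_singleton _)).subset hsub

/-- the net points at scale `2^(-n)` -/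
noncomputable def net (n j : ℕ) : S1 := expPoint (-4 + (j : ℝ) / 2 ^ n)

lemma exists_net (n : ℕ) (z : S1) : ∃ j < 8 * 2 ^ n, dist z (net n j) ≤ 1 / 2 ^ n := by
  obtain ⟨φ, hφ, rfl⟩ := exists_expPoint z
  have hp := Real.pi_lt_four
  have h0 : 0 ≤ (φ + 4) * 2 ^ n := by
    have : 0 ≤ φ + 4 := by linarith [hφ.1]
    positivity
  have h2 : (0 : ℝ) < 2 ^ n := by positivity
  refine ⟨⌊(φ + 4) * 2 ^ n⌋₊, ?_, ?_⟩
  · rw [Nat.floor_lt h0]
    push_cast
    have : φ + 4 < 8 := by linarith [hφ.2]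
    nlinarith
  · unfold net
    refine (dist_expPoint_le _ _).trans ?_
    have h3 := Nat.floor_le h0
    have h4 := Nat.lt_floor_add_one ((φ + 4) * 2 ^ n)
    have e : φ - (-4 + (⌊(φ + 4) * 2 ^ n⌋₊ : ℝ) / 2 ^ n) =
        ((φ + 4) * 2 ^ n - ⌊(φ + 4) * 2 ^ n⌋₊) / 2 ^ n := by field_simp; ring
    rw [e, abs_div, abs_of_pos h2]
    gcongr
    rw [abs_le]; constructor <;> linarith

lemma abel (u : ℂ) (hu : ‖u‖ = 1) (a b : ℕ) :
    ‖1 - u‖ * ‖∑ k ∈ Finset.Ico a b, u ^ (k + 1) / ((k : ℂ) + 1)‖ ≤ 2 / ((a : ℝ) + 1) := by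
  rcases lt_or_ge b a with hab | hab
  · rw [Finset.Ico_eq_empty (by omega)]; simp; positivity
  have key : ∀ b, a ≤ b → ‖(1 - u) * (∑ k ∈ Finset.Ico a b, u ^ (k + 1) / ((k : ℂ) + 1)) +
      u ^ (b + 1) / ((b : ℂ) + 1)‖ ≤ 2 / ((a : ℝ) + 1) - 1 / ((b : ℝ) + 1) := by
    intro b hb
    induction b, hb using Nat.le_induction with
    | base =>
      rw [Finset.Ico_self, Finset.sum_empty, mul_zero, zero_add, norm_div, norm_pow, hu, one_pow]
      have : ‖(a : ℂ) + 1‖ = (a : ℝ) + 1 := by exact_mod_cast Complex.norm_natCast (a + 1)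
      rw [this]
      apply le_of_eq; ring
    | succ b hb ih =>
      rw [Finset.sum_Ico_succ_top hb]
      have hb1 : ((b : ℂ) + 1) ≠ 0 := by exact_mod_cast Nat.succ_ne_zero b
      have hb2 : ((b : ℂ) + 1 + 1) ≠ 0 := by exact_mod_cast Nat.succ_ne_zero (b + 1)
      have e : (1 - u) * (∑ k ∈ Finset.Ico a b, u ^ (k + 1) / ((k : ℂ) + 1) + u ^ (b + 1) / ((b : ℂ) + 1)) +
          u ^ (b + 1 + 1) / (((b + 1 : ℕ) : ℂ) + 1) =
          ((1 - u) * (∑ k ∈ Finset.Ico a b, u ^ (k + 1) / ((k : ℂ) + 1)) +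
            u ^ (b + 1) / ((b : ℂ) + 1)) -
          u ^ (b + 2) * (((1 / ((b : ℝ) + 1) - 1 / ((b : ℝ) + 1 + 1) : ℝ)) : ℂ) := by
        push_cast
        field_simp
        ring
      rw [e]
      refine (norm_sub_le _ _).trans ?_
      have hpos : (0 : ℝ) ≤ 1 / ((b : ℝ) + 1) - 1 / ((b : ℝ) + 1 + 1) := by
        rw [sub_nonneg]
        apply one_div_le_one_div_of_le <;> linarith [(Nat.cast_nonneg b : (0 : ℝ) ≤ b)]
      rw [norm_mul, norm_pow, hu, one_pow, one_mul, Complex.norm_real, Real.norm_eq_abs,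
        abs_of_nonneg hpos]
      push_cast
      linarith
  have h1 := key b hab
  rw [← norm_mul]
  have h2 : ‖u ^ (b + 1) / ((b : ℂ) + 1)‖ = 1 / ((b : ℝ) + 1) := by
    rw [norm_div, norm_pow, hu, one_pow]
    have : ‖(b : ℂ) + 1‖ = (b : ℝ) + 1 := by exact_mod_cast Complex.norm_natCast (b + 1)
    rw [this]
  have h3 := norm_sub_le ((1 - u) * (∑ k ∈ Finset.Ico a b, u ^ (k + 1) / ((k : ℂ) + 1)) +
      u ^ (b + 1) / ((b : ℂ) + 1)) (u ^ (b + 1) / ((b : ℂ) + 1))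
  rw [add_sub_cancel_right, h2] at h3
  linarith

lemma abel_re (σ u : ℂ) (hσ : ‖σ‖ ≤ 1) (hu : ‖u‖ = 1) (δ : ℝ) (hδ : 0 < δ) (hδu : δ ≤ ‖1 - u‖)
    (a b : ℕ) :
    |∑ k ∈ Finset.Ico a b, (σ * u ^ (k + 1)).re / ((k : ℝ) + 1)| ≤ 2 / (((a : ℝ) + 1) * δ) := by
  have e : ∑ k ∈ Finset.Ico a b, (σ * u ^ (k + 1)).re / ((k : ℝ) + 1) =
      (σ * ∑ k ∈ Finset.Ico a b, u ^ (k + 1) / ((k : ℂ) + 1)).re := by
    rw [Finset.mul_sum, Complex.re_sum]
    refine Finset.sum_congr rfl fun k _ => ?_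
    rw [← mul_div_assoc]
    have : ((k : ℂ) + 1) = (((k : ℝ) + 1 : ℝ) : ℂ) := by push_cast; rfl
    rw [this, Complex.div_ofReal_re]
  rw [e]
  refine (Complex.abs_re_le_norm _).trans ?_
  rw [norm_mul]
  have h1 := abel u hu a b
  set S := ‖∑ k ∈ Finset.Ico a b, u ^ (k + 1) / ((k : ℂ) + 1)‖
  have hS : 0 ≤ S := norm_nonneg _
  have h2 : δ * S ≤ 2 / ((a : ℝ) + 1) := le_trans (by gcongr) h1
  have h3 : ‖σ‖ * S ≤ S := by nlinarith [norm_nonneg σ]
  refine h3.trans ?_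
  rw [← div_div, le_div_iff₀ hδ]
  linarith

lemma harm_le_log (a b : ℕ) (ha : 1 ≤ a) (hab : a ≤ b) :
    ∑ k ∈ Finset.Ico a b, 1 / ((k : ℝ) + 1) ≤ Real.log b - Real.log a := by
  induction b, hab using Nat.le_induction with
  | base => simp
  | succ b hb ih =>
    rw [Finset.sum_Ico_succ_top hb]
    have hb0 : (0 : ℝ) < b := by exact_mod_cast (lt_of_lt_of_le one_pos (ha.trans hb))
    have h1 := Real.one_sub_inv_le_log_of_pos (x := ((b : ℝ) + 1) / b) (by positivity)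
    rw [Real.log_div (by positivity) hb0.ne'] at h1
    have e : 1 - (((b : ℝ) + 1) / b)⁻¹ = 1 / ((b : ℝ) + 1) := by field_simp; ring
    rw [e] at h1
    push_cast
    linarith

lemma harm_eq (n : ℕ) : ∑ k ∈ Finset.range n, 1 / ((k : ℝ) + 1) = (harmonic n : ℝ) := by
  unfold harmonic
  push_cast
  refine Finset.sum_congr rfl fun k _ => ?_
  rw [one_div]

lemma harm_upper (n : ℕ) : ∑ k ∈ Finset.range n, 1 / ((k : ℝ) + 1) ≤ 1 + Real.log n := by
  rw [harm_eq]; exact harmonic_le_one_add_log n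

lemma harm_lower (n : ℕ) : Real.log ((n : ℝ) + 1) ≤ ∑ k ∈ Finset.range n, 1 / ((k : ℝ) + 1) := by
  rw [harm_eq]
  have := log_add_one_le_harmonic n
  push_cast at this
  exact this

/-- the quadratic form `E (Re (ξ u))²` in terms of `σ = E ξ²` -/
noncomputable def QF (σ u : ℂ) : ℝ := (‖u‖ ^ 2 + (σ * u ^ 2).re) / 2

lemma QF_lip {σ : ℂ} (hσ : ‖σ‖ ≤ 1) (x y : ℂ) :
    |QF σ x - QF σ y| ≤ ‖x - y‖ * (‖x‖ + ‖y‖) := by
  unfold QF
  have h1 : |‖x‖ ^ 2 - ‖y‖ ^ 2| ≤ ‖x - y‖ * (‖x‖ + ‖y‖) := by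
    rw [show ‖x‖ ^ 2 - ‖y‖ ^ 2 = (‖x‖ - ‖y‖) * (‖x‖ + ‖y‖) by ring, abs_mul,
      abs_of_nonneg (by positivity : 0 ≤ ‖x‖ + ‖y‖)]
    gcongr
    exact abs_norm_sub_norm_le x y
  have h2 : |(σ * x ^ 2).re - (σ * y ^ 2).re| ≤ ‖x - y‖ * (‖x‖ + ‖y‖) := by
    rw [← Complex.sub_re]
    refine (Complex.abs_re_le_norm _).trans ?_
    rw [show σ * x ^ 2 - σ * y ^ 2 = σ * ((x - y) * (x + y)) by ring, norm_mul, norm_mul]
    calc ‖σ‖ * (‖x - y‖ * ‖x + y‖) ≤ 1 * (‖x - y‖ * (‖x‖ + ‖y‖)) := by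
          gcongr; exact norm_add_le _ _
      _ = _ := one_mul _
  rw [abs_le] at h1 h2 ⊢
  constructor <;> linarith [h1.1, h1.2, h2.1, h2.2]

lemma QF_smul (σ u : ℂ) (t : ℝ) : QF σ (t * u) = t ^ 2 * QF σ u := by
  unfold QF
  rw [norm_mul, Complex.norm_real, Real.norm_eq_abs, mul_pow, sq_abs,
    show σ * ((t : ℂ) * u) ^ 2 = ((t ^ 2 : ℝ) : ℂ) * (σ * u ^ 2) by push_cast; ring,
    Complex.re_ofReal_mul]
  ring

lemma QF_add (σ x y : ℂ) :
    QF σ (x + y) - QF σ x - QF σ y = (x * (starRingEnd ℂ) y).re + (σ * (x * y)).re := by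
  unfold QF
  rw [Complex.sq_norm, Complex.sq_norm, Complex.sq_norm, Complex.normSq_add,
    show σ * (x + y) ^ 2 = σ * x ^ 2 + σ * y ^ 2 + (σ * (x * y) + σ * (x * y)) by ring]
  simp only [Complex.add_re]
  ring

lemma QF_le {σ : ℂ} (hσ : ‖σ‖ ≤ 1) (u : ℂ) : QF σ u ≤ ‖u‖ ^ 2 := by
  have := QF_lip hσ u 0
  have h0 : QF σ 0 = 0 := by simp [QF]
  rw [h0, sub_zero, sub_zero, norm_zero, add_zero] at this
  nlinarith [le_abs_self (QF σ u)]

/-- the variance of the real part of the random polynomial -/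
noncomputable def VV (σ : ℂ) (n : ℕ) (z : ℂ) : ℝ :=
  ∑ k ∈ Finset.range n, QF σ (z ^ (k + 1)) / ((k : ℝ) + 1)

lemma im_add_le (z w : ℂ) (hz : ‖z‖ = 1) : |z.im + w.im| ≤ ‖1 - z * w‖ := by
  have e : 1 - z * w = z * ((starRingEnd ℂ) z - w) := by
    rw [mul_sub, Complex.mul_conj, Complex.normSq_eq_norm_sq, hz]; simp
  rw [e, norm_mul, hz, one_mul]
  have := Complex.abs_im_le_norm ((starRingEnd ℂ) z - w)
  rw [Complex.sub_im, Complex.conj_im] at this
  rw [← abs_neg]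
  convert this using 2
  ring

lemma norm_one_sub_conj (z w : ℂ) (hw : ‖w‖ = 1) : ‖1 - z * (starRingEnd ℂ) w‖ = ‖z - w‖ := by
  have e : 1 - z * (starRingEnd ℂ) w = (w - z) * (starRingEnd ℂ) w := by
    rw [sub_mul, Complex.mul_conj, Complex.normSq_eq_norm_sq, hw]; simp
  rw [e, norm_mul, Complex.norm_conj, hw, mul_one, norm_sub_rev]

lemma VV_bound {σ : ℂ} (hσ : ‖σ‖ ≤ 1) (N : ℕ) (hN : 1 ≤ N) (z : ℂ) (hz : ‖z‖ = 1) (η : ℝ)
    (hη : 0 < η) (hzη : η ≤ |z.im|) : |VV σ N z - Real.log N / 2| ≤ 1 / 2 + 1 / η := by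
  have e : VV σ N z = (∑ k ∈ Finset.range N, 1 / ((k : ℝ) + 1)) / 2 +
      (∑ k ∈ Finset.Ico 0 N, (σ * (z * z) ^ (k + 1)).re / ((k : ℝ) + 1)) / 2 := by
    unfold VV QF
    rw [← Finset.range_eq_Ico, Finset.sum_div, Finset.sum_div, ← Finset.sum_add_distrib]
    refine Finset.sum_congr rfl fun k _ => ?_
    rw [norm_pow, hz, one_pow, one_pow, show (z ^ (k + 1)) ^ 2 = (z * z) ^ (k + 1) by ring]
    ring
  have h1 := abel_re σ (z * z) hσ (by rw [norm_mul, hz, one_mul]) η hη (by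
    refine le_trans ?_ (im_add_le z z hz)
    rw [← two_mul, abs_mul, abs_two]
    linarith [abs_nonneg z.im]) 0 N
  have h2 := harm_upper N
  have h3 := harm_lower N
  have h4 : Real.log N ≤ Real.log ((N : ℝ) + 1) :=
    Real.log_le_log (by exact_mod_cast hN) (by linarith)
  rw [e]
  simp only [Nat.cast_zero, zero_add, one_mul] at h1
  have h5 : 2 / η = 2 * (1 / η) := by ring
  rw [h5, abs_le] at h1
  rw [abs_le]
  constructor <;> linarith [h1.1, h1.2]

lemma norm_pow_sub_le (z w : ℂ) (hz : ‖z‖ = 1) (hw : ‖w‖ = 1) (m : ℕ) :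
    ‖z ^ m - w ^ m‖ ≤ m * ‖z - w‖ := by
  induction m with
  | zero => simp
  | succ m ih =>
    have e : z ^ (m + 1) - w ^ (m + 1) = z * (z ^ m - w ^ m) + (z - w) * w ^ m := by ring
    rw [e]
    refine (norm_add_le _ _).trans ?_
    rw [norm_mul, norm_mul, norm_pow, hz, hw, one_pow, one_mul, mul_one]
    push_cast
    linarith

/-- the coefficients in the two point estimate -/
noncomputable def aa (p : ℝ) (N : ℕ) (z0 z w : ℂ) (k : ℕ) : ℂ :=
  (if k < N then ((p - 2 : ℝ) : ℂ) * z0 ^ (k + 1) else 0) + z ^ (k + 1) + w ^ (k + 1)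

lemma norm_aa_le {p : ℝ} (hp0 : 0 ≤ p) (hp2 : p ≤ 2) (N : ℕ) {z0 z w : ℂ} (h0 : ‖z0‖ = 1)
    (hz : ‖z‖ = 1) (hw : ‖w‖ = 1) (k : ℕ) : ‖aa p N z0 z w k‖ ≤ 4 := by
  unfold aa
  have h1 : ‖(if k < N then ((p - 2 : ℝ) : ℂ) * z0 ^ (k + 1) else 0)‖ ≤ 2 := by
    split_ifs
    · rw [norm_mul, norm_pow, h0, one_pow, mul_one, Complex.norm_real, Real.norm_eq_abs, abs_le]
      constructor <;> linarith
    · simp
  refine (norm_add₃_le).trans ?_
  rw [norm_pow, norm_pow, hz, hw, one_pow]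
  linarith

lemma expo_bound {σ : ℂ} (hσ : ‖σ‖ ≤ 1) {p : ℝ} (hp0 : 0 ≤ p) (hp2 : p ≤ 2) (η : ℝ) (hη : 0 < η)
    (N n : ℕ) (hN : 1 ≤ N) (hn : N ≤ n) (hNη : 3 / (N : ℝ) ≤ η / 2) {z0 z w : ℂ}
    (h0 : ‖z0‖ = 1) (hz : ‖z‖ = 1) (hw : ‖w‖ = 1) (h0η : η ≤ |z0.im|)
    (hz0 : ‖z - z0‖ < 3 / (N : ℝ)) (hw0 : ‖w - z0‖ < 3 / (N : ℝ)) (hzw : z ≠ w) :
    ∃ i : ℕ, ‖w - z‖ < 6 / (N : ℝ) / 2 ^ i ∧
      ∑ k ∈ Finset.range n, QF σ (aa p N z0 z w k) / ((k : ℝ) + 1) -
        ((p - 2) * VV σ N z0 + VV σ n z + VV σ n w) ≤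
      (p ^ 2 - p) * VV σ N z0 + (49 + 2 / η) + (i + 1) * Real.log 2 := by
  have hNpos : (0 : ℝ) < N := by exact_mod_cast hN
  have hd0 : 0 < ‖w - z‖ := norm_pos_iff.2 (sub_ne_zero.2 hzw.symm)
  have hd6 : ‖w - z‖ < 6 / (N : ℝ) := by
    have := norm_sub_le (w - z0) (z - z0)
    rw [show w - z0 - (z - z0) = w - z by ring] at this
    have e : (6 : ℝ) / N = 3 / N + 3 / N := by ring
    linarith
  obtain ⟨i, hi1, hi2⟩ : ∃ i : ℕ, (2 : ℝ) ^ i < 6 / N / ‖w - z‖ ∧ 6 / N / ‖w - z‖ ≤ 2 ^ (i + 1) := by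
    have h1 : (1 : ℝ) < 6 / N / ‖w - z‖ := by rw [lt_div_iff₀ hd0]; linarith
    obtain ⟨i, hi1, hi2⟩ := exists_nat_pow_near_of_lt_one (x := (6 / N / ‖w - z‖)⁻¹)
      (y := (2 : ℝ)⁻¹) (by positivity) (inv_le_one_of_one_le₀ h1.le) (by norm_num) (by norm_num)
    rw [inv_pow, inv_lt_inv₀ (by positivity) (by positivity)] at hi1
    rw [inv_pow, inv_le_inv₀ (by positivity) (by positivity)] at hi2
    rcases hi2.lt_or_eq with h | h
    · exact ⟨i, h, hi1.le⟩
    · rcases i with _ | i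
      · simp at h; rw [← h] at h1; norm_num at h1
      · refine ⟨i, ?_, h.symm.le⟩
        rw [← h, pow_succ]
        have : (0 : ℝ) < 2 ^ i := by positivity
        linarith
  refine ⟨i, ?_, ?_⟩
  · rw [lt_div_iff₀ hd0] at hi1
    rw [lt_div_iff₀ (by positivity)]
    linarith
  -- split the sums
  have hsplit : ∀ f : ℕ → ℝ, ∑ k ∈ Finset.range n, f k =
      ∑ k ∈ Finset.range N, f k + ∑ k ∈ Finset.Ico N n, f k := fun f =>
    (Finset.sum_range_add_sum_Ico f hn).symm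
  have part1 : ∑ k ∈ Finset.range N, (QF σ (aa p N z0 z w k) / ((k : ℝ) + 1) -
      QF σ (z ^ (k + 1)) / ((k : ℝ) + 1) - QF σ (w ^ (k + 1)) / ((k : ℝ) + 1)) ≤
      (p ^ 2 - 2) * VV σ N z0 + 48 := by
    unfold VV
    have e48 : (48 : ℝ) = ∑ k ∈ Finset.range N, 48 / (N : ℝ) := by
      rw [Finset.sum_const, Finset.card_range, nsmul_eq_mul]; field_simp
    rw [Finset.mul_sum, e48, ← Finset.sum_add_distrib]
    refine Finset.sum_le_sum fun k hk => ?_
    have hk' : k < N := Finset.mem_range.1 hk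
    have hk1 : (0 : ℝ) < (k : ℝ) + 1 := by positivity
    have e1 := norm_pow_sub_le z z0 hz h0 (k + 1)
    have e2 := norm_pow_sub_le w z0 hw h0 (k + 1)
    push_cast at e1 e2
    have e1' : ‖z ^ (k + 1) - z0 ^ (k + 1)‖ ≤ ((k : ℝ) + 1) * (3 / N) :=
      e1.trans (by gcongr)
    have e2' : ‖w ^ (k + 1) - z0 ^ (k + 1)‖ ≤ ((k : ℝ) + 1) * (3 / N) :=
      e2.trans (by gcongr)
    have n0 : ‖z0 ^ (k + 1)‖ = 1 := by rw [norm_pow, h0, one_pow]
    have nz : ‖z ^ (k + 1)‖ = 1 := by rw [norm_pow, hz, one_pow]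
    have nw : ‖w ^ (k + 1)‖ = 1 := by rw [norm_pow, hw, one_pow]
    have l1 := QF_lip hσ (z ^ (k + 1)) (z0 ^ (k + 1))
    have l2 := QF_lip hσ (w ^ (k + 1)) (z0 ^ (k + 1))
    have l3 := QF_lip hσ (aa p N z0 z w k) ((p : ℂ) * z0 ^ (k + 1))
    rw [QF_smul] at l3
    have na := norm_aa_le hp0 hp2 N h0 hz hw k
    have np : ‖(p : ℂ) * z0 ^ (k + 1)‖ ≤ 2 := by
      rw [norm_mul, n0, mul_one, Complex.norm_real, Real.norm_eq_abs, abs_of_nonneg hp0]; exact hp2
    have nd : ‖aa p N z0 z w k - (p : ℂ) * z0 ^ (k + 1)‖ ≤ 2 * (((k : ℝ) + 1) * (3 / N)) := by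
      have : aa p N z0 z w k - (p : ℂ) * z0 ^ (k + 1) =
          (z ^ (k + 1) - z0 ^ (k + 1)) + (w ^ (k + 1) - z0 ^ (k + 1)) := by
        unfold aa; rw [if_pos hk']; push_cast; ring
      rw [this]
      refine (norm_add_le _ _).trans ?_
      linarith
    rw [nz, n0] at l1
    rw [nw, n0] at l2
    have l3' : QF σ (aa p N z0 z w k) ≤ p ^ 2 * QF σ (z0 ^ (k + 1)) +
        12 * (((k : ℝ) + 1) * (3 / N)) := by
      have h5 : ‖aa p N z0 z w k - (p : ℂ) * z0 ^ (k + 1)‖ *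
          (‖aa p N z0 z w k‖ + ‖(p : ℂ) * z0 ^ (k + 1)‖) ≤ (2 * (((k : ℝ) + 1) * (3 / N))) * 6 := by
        gcongr; linarith
      linarith [(abs_le.1 l3).2]
    have l1' : QF σ (z0 ^ (k + 1)) - 2 * (((k : ℝ) + 1) * (3 / N)) ≤ QF σ (z ^ (k + 1)) := by
      linarith [(abs_le.1 l1).1]
    have l2' : QF σ (z0 ^ (k + 1)) - 2 * (((k : ℝ) + 1) * (3 / N)) ≤ QF σ (w ^ (k + 1)) := by
      linarith [(abs_le.1 l2).1]
    have e3 : (p ^ 2 - 2) * (QF σ (z0 ^ (k + 1)) / ((k : ℝ) + 1)) + 48 / (N : ℝ) =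
        ((p ^ 2 - 2) * QF σ (z0 ^ (k + 1)) + 16 * (((k : ℝ) + 1) * (3 / N))) / ((k : ℝ) + 1) := by
      field_simp; ring
    rw [e3, ← sub_div, ← sub_div]
    gcongr
    linarith
  have part2 : ∑ k ∈ Finset.Ico N n, (QF σ (aa p N z0 z w k) / ((k : ℝ) + 1) -
      QF σ (z ^ (k + 1)) / ((k : ℝ) + 1) - QF σ (w ^ (k + 1)) / ((k : ℝ) + 1)) ≤
      (1 + 2 / η) + (i + 1) * Real.log 2 := by
    have e : ∑ k ∈ Finset.Ico N n, (QF σ (aa p N z0 z w k) / ((k : ℝ) + 1) -
        QF σ (z ^ (k + 1)) / ((k : ℝ) + 1) - QF σ (w ^ (k + 1)) / ((k : ℝ) + 1)) =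
        ∑ k ∈ Finset.Ico N n, ((1 : ℂ) * (z * (starRingEnd ℂ) w) ^ (k + 1)).re / ((k : ℝ) + 1) +
        ∑ k ∈ Finset.Ico N n, (σ * (z * w) ^ (k + 1)).re / ((k : ℝ) + 1) := by
      rw [← Finset.sum_add_distrib]
      refine Finset.sum_congr rfl fun k hk => ?_
      have hk' : ¬ k < N := not_lt.2 (Finset.mem_Ico.1 hk).1
      unfold aa
      rw [if_neg hk', zero_add, ← sub_div, ← sub_div, QF_add, one_mul, mul_pow, mul_pow, map_pow,
        add_div]
    rw [e]
    have hzw1 : ‖z * w‖ = 1 := by rw [norm_mul, hz, hw, one_mul]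
    have hzw2 : ‖z * (starRingEnd ℂ) w‖ = 1 := by rw [norm_mul, hz, Complex.norm_conj, hw, one_mul]
    have him : η ≤ ‖1 - z * w‖ := by
      refine le_trans ?_ (im_add_le z w hz)
      have a1 := Complex.abs_im_le_norm (z - z0)
      have a2 := Complex.abs_im_le_norm (w - z0)
      rw [Complex.sub_im] at a1 a2
      have a3 : |z0.im + z0.im| ≤ |z.im + w.im| + |z.im - z0.im| + |w.im - z0.im| := by
        have : z0.im + z0.im = (z.im + w.im) - (z.im - z0.im) - (w.im - z0.im) := by ring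
        rw [this]
        refine (abs_sub _ _).trans ?_
        linarith [abs_sub (z.im + w.im) (z.im - z0.im)]
      rw [← two_mul, abs_mul, abs_two] at a3
      linarith
    have b1 := abel_re σ (z * w) hσ hzw1 η hη him N n
    have b1' : 2 / (((N : ℝ) + 1) * η) ≤ 2 / η := by
      gcongr
      nlinarith
    have b2 : ∑ k ∈ Finset.Ico N n, ((1 : ℂ) * (z * (starRingEnd ℂ) w) ^ (k + 1)).re / ((k : ℝ) + 1)
        ≤ 1 + (i + 1) * Real.log 2 := by
      set M := N * 2 ^ (i + 1) with hM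
      have hNM : N ≤ M := Nat.le_mul_of_pos_right _ (by positivity)
      have hterm : ∀ k : ℕ, ((1 : ℂ) * (z * (starRingEnd ℂ) w) ^ (k + 1)).re / ((k : ℝ) + 1) ≤
          1 / ((k : ℝ) + 1) := by
        intro k
        gcongr
        refine (Complex.re_le_norm _).trans ?_
        rw [one_mul, norm_pow, hzw2, one_pow]
      have hlog : ∑ k ∈ Finset.Ico N M, 1 / ((k : ℝ) + 1) ≤ (i + 1) * Real.log 2 := by
        refine (harm_le_log N M hN hNM).trans ?_
        rw [hM]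
        push_cast
        rw [Real.log_mul hNpos.ne' (by positivity), Real.log_pow]
        push_cast
        linarith
      rcases le_or_gt n M with hnM | hnM
      · refine (Finset.sum_le_sum fun k _ => hterm k).trans ?_
        refine le_trans (Finset.sum_le_sum_of_subset_of_nonneg
          (Finset.Ico_subset_Ico_right hnM) fun k _ _ => by positivity) ?_
        linarith
      · rw [← Finset.sum_Ico_consecutive _ hNM hnM.le]
        have c1 := (Finset.sum_le_sum fun k (_ : k ∈ Finset.Ico N M) => hterm k).trans hlog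
        have c2 := abel_re 1 (z * (starRingEnd ℂ) w) (by simp) hzw2 ‖w - z‖ hd0
          (by rw [norm_one_sub_conj z w hw, norm_sub_rev]) M n
        have c3 : 2 / (((M : ℝ) + 1) * ‖w - z‖) ≤ 1 := by
          rw [div_le_one (by positivity)]
          rw [div_le_iff₀ hd0, div_le_iff₀ hNpos] at hi2
          have : (M : ℝ) = N * 2 ^ (i + 1) := by rw [hM]; push_cast; ring
          rw [this]
          nlinarith
        linarith [(abs_le.1 c2).2]
    linarith [(abs_le.1 b1).2]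
  have e4 : ∑ k ∈ Finset.range n, QF σ (aa p N z0 z w k) / ((k : ℝ) + 1) -
        ((p - 2) * VV σ N z0 + VV σ n z + VV σ n w) =
      ∑ k ∈ Finset.range n, (QF σ (aa p N z0 z w k) / ((k : ℝ) + 1) -
      QF σ (z ^ (k + 1)) / ((k : ℝ) + 1) - QF σ (w ^ (k + 1)) / ((k : ℝ) + 1)) -
      (p - 2) * VV σ N z0 := by
    rw [Finset.sum_sub_distrib, Finset.sum_sub_distrib]
    unfold VV
    ring
  rw [e4, hsplit]
  linarith

end Pool.Agent.H403Z.MC
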