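import Pool.Agent.H403Z.MC.Geo

/-!
Laplace transform estimates for the truncated coefficients.
-/

open MeasureTheory ProbabilityTheory Filter Topology Set Metric
open scoped ENNReal NNReal Real
open Pool.Agent.Results.MP_ab74d4_pr.ChaosConvergence

set_option linter.unusedSectionVars false

namespace Pool.Agent.H403Z.MC

/-- The standing assumptions on the coefficients: measurable, independent, identically
distributed, centered, of variance one. -/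
structure IsCoeff {Ω : Type*} {mΩ : MeasurableSpace Ω} (P : Measure Ω) (ξ : ℕ → Ω → ℂ) : Prop where
  meas : ∀ k, Measurable (ξ k)
  indep : iIndepFun ξ P
  ident : ∀ k, IdentDistrib (ξ k) (ξ 0) P P
  mean : ∫ ω, ξ 0 ω ∂P = 0
  var : ∫ ω, ‖ξ 0 ω‖ ^ 2 ∂P = 1

variable {Ω : Type*} {mΩ : MeasurableSpace Ω} {P : Measure Ω} [IsProbabilityMeasure P]
  {ξ : ℕ → Ω → ℂ}

lemma IsCoeff.sq_int (H : IsCoeff P ξ) : Integrable (fun ω => ‖ξ 0 ω‖ ^ 2) P := by
  by_contra hcon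
  have := H.var
  rw [integral_undef hcon] at this
  exact zero_ne_one this

lemma IsCoeff.memLp (H : IsCoeff P ξ) (k : ℕ) : MemLp (ξ k) 2 P := by
  have hL0 : MemLp (ξ 0) 2 P := by
    rw [← integrable_norm_rpow_iff (H.meas 0).aestronglyMeasurable (by norm_num) (by norm_num)]
    simpa using H.sq_int
  exact (H.ident k).symm.memLp_snd hL0

lemma IsCoeff.mean' (H : IsCoeff P ξ) (k : ℕ) : ∫ ω, ξ k ω ∂P = 0 := by
  rw [(H.ident k).integral_eq]; exact H.mean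

/-- the pseudo-variance -/
noncomputable def sig (P : Measure Ω) (ξ : ℕ → Ω → ℂ) : ℂ := ∫ ω, ξ 0 ω ^ 2 ∂P

lemma IsCoeff.norm_sig (H : IsCoeff P ξ) : ‖sig P ξ‖ ≤ 1 := by
  unfold sig
  refine (norm_integral_le_integral_norm _).trans ?_
  simp only [norm_pow]
  exact H.var.le

lemma IsCoeff.int_re_sq (H : IsCoeff P ξ) (k : ℕ) (u : ℂ) :
    Integrable (fun ω => (ξ k ω * u).re ^ 2) P := by
  have h1 : Integrable (fun ω => ‖ξ k ω‖ ^ 2 * ‖u‖ ^ 2) P :=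
    ((H.memLp k).integrable_norm_pow (by norm_num)).mul_const _
  refine h1.mono' ((Complex.measurable_re.comp ((H.meas k).mul_const u)).pow_const 2).aestronglyMeasurable
    (ae_of_all _ fun ω => ?_)
  rw [Real.norm_eq_abs, abs_pow, ← mul_pow, ← norm_mul]
  gcongr
  exact Complex.abs_re_le_norm _

lemma IsCoeff.QF_eq (H : IsCoeff P ξ) (k : ℕ) (u : ℂ) :
    ∫ ω, (ξ k ω * u).re ^ 2 ∂P = QF (sig P ξ) u := by
  have h0 : ∫ ω, (ξ k ω * u).re ^ 2 ∂P = ∫ ω, (ξ 0 ω * u).re ^ 2 ∂P :=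
    ((H.ident k).comp (u := fun c : ℂ => (c * u).re ^ 2)
      ((Complex.measurable_re.comp (measurable_id.mul_const u)).pow_const 2)).integral_eq
  rw [h0]
  have h1 : ∀ ω, (ξ 0 ω * u).re ^ 2 = (‖ξ 0 ω‖ ^ 2 * ‖u‖ ^ 2 + (ξ 0 ω ^ 2 * u ^ 2).re) / 2 := by
    intro ω
    rw [← mul_pow, ← mul_pow, ← norm_mul, Complex.sq_norm, Complex.normSq_apply, sq (ξ 0 ω * u),
      Complex.mul_re (ξ 0 ω * u)]
    ring
  have h2 : Integrable (fun ω => ξ 0 ω ^ 2) P := by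
    refine H.sq_int.mono' ((H.meas 0).pow_const 2).aestronglyMeasurable (ae_of_all _ fun ω => ?_)
    rw [norm_pow]
  have h3 : Integrable (fun ω => (ξ 0 ω ^ 2 * u ^ 2).re) P := (h2.mul_const _).re
  simp only [h1]
  rw [integral_div, integral_add (H.sq_int.mul_const _) h3, integral_mul_const, H.var, one_mul]
  have h4 : ∫ ω, (ξ 0 ω ^ 2 * u ^ 2).re ∂P = (sig P ξ * u ^ 2).re := by
    have := integral_re (h2.mul_const (u ^ 2))
    rw [integral_mul_const] at this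
    simpa [sig] using this
  rw [h4]
  rfl

lemma IsCoeff.QF_nonneg (H : IsCoeff P ξ) (u : ℂ) : 0 ≤ QF (sig P ξ) u := by
  rw [← H.QF_eq 0 u]
  exact integral_nonneg fun ω => sq_nonneg _

/-- normalised real part -/
noncomputable def yy (k : ℕ) (c u : ℂ) : ℝ := (c * u).re / √((k : ℝ) + 1)

lemma measurable_yy (k : ℕ) : Measurable (fun p : ℂ × ℂ => yy k p.1 p.2) := by
  unfold yy
  exact (Complex.measurable_re.comp (measurable_fst.mul measurable_snd)).div_const _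

lemma measurable_yy_comp {α : Type*} {mα : MeasurableSpace α} (k : ℕ) {f g : α → ℂ}
    (hf : Measurable f) (hg : Measurable g) : Measurable (fun a => yy k (f a) (g a)) := by
  unfold yy
  exact (Complex.measurable_re.comp (hf.mul hg)).div_const _

lemma abs_yy_le (k : ℕ) (c u : ℂ) (hu : ‖u‖ ≤ 1) : |yy k c u| ≤ ‖c‖ / √((k : ℝ) + 1) := by
  unfold yy
  rw [abs_div, abs_of_nonneg (Real.sqrt_nonneg _)]
  gcongr
  calc |(c * u).re| ≤ ‖c * u‖ := Complex.abs_re_le_norm _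
    _ = ‖c‖ * ‖u‖ := norm_mul _ _
    _ ≤ ‖c‖ * 1 := by gcongr
    _ = ‖c‖ := mul_one _

lemma abs_yy_le' (k : ℕ) (c u : ℂ) (hu : ‖u‖ ≤ 1) : |yy k c u| ≤ ‖c‖ := by
  refine (abs_yy_le k c u hu).trans (div_le_self (norm_nonneg _) ?_)
  rw [Real.one_le_sqrt]; linarith [(Nat.cast_nonneg k : (0 : ℝ) ≤ k)]

lemma abs_yy_tr_le (k : ℕ) (c u : ℂ) (hu : ‖u‖ ≤ 1) : |yy k (tr k c) u| ≤ 1 := by
  refine (abs_yy_le k _ u hu).trans ?_
  rw [div_le_one (by positivity)]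
  unfold tr
  split_ifs with h
  · exact Real.le_sqrt_of_sq_le h
  · simp

lemma yy_smul (k : ℕ) (c u : ℂ) (t : ℝ) : yy k c (t * u) = t * yy k c u := by
  unfold yy
  rw [mul_left_comm, Complex.re_ofReal_mul]; ring

lemma yy_add (k : ℕ) (c u v : ℂ) : yy k c (u + v) = yy k c u + yy k c v := by
  unfold yy
  rw [mul_add, Complex.add_re, add_div]

lemma yy_sq (k : ℕ) (c u : ℂ) : yy k c u ^ 2 = (c * u).re ^ 2 / ((k : ℝ) + 1) := by
  unfold yy
  rw [div_pow, Real.sq_sqrt (by positivity)]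

/-- the part of the variance removed by the truncation -/
noncomputable def ww (P : Measure Ω) (ξ : ℕ → Ω → ℂ) (k : ℕ) (u : ℂ) : ℝ :=
  ∫ ω, (if ‖ξ 0 ω‖ ^ 2 ≤ (k : ℝ) + 1 then 0 else (ξ 0 ω * u).re ^ 2) / ((k : ℝ) + 1) ∂P

/-- the tail of the second moment -/
noncomputable def tl (P : Measure Ω) (ξ : ℕ → Ω → ℂ) (k : ℕ) : ℝ :=
  ∫ ω, (if ‖ξ 0 ω‖ ^ 2 ≤ (k : ℝ) + 1 then 0 else ‖ξ 0 ω‖ ^ 2) / ((k : ℝ) + 1) ∂P

lemma measurable_wf (k : ℕ) (u : ℂ) : Measurable (fun c : ℂ =>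
    (if ‖c‖ ^ 2 ≤ (k : ℝ) + 1 then 0 else (c * u).re ^ 2) / ((k : ℝ) + 1)) := by
  refine Measurable.div_const ?_ _
  exact Measurable.ite (measurableSet_le (by fun_prop) (by fun_prop)) measurable_const
    ((Complex.measurable_re.comp (measurable_id.mul_const u)).pow_const 2)

lemma measurable_tf (k : ℕ) : Measurable (fun c : ℂ =>
    (if ‖c‖ ^ 2 ≤ (k : ℝ) + 1 then 0 else ‖c‖ ^ 2) / ((k : ℝ) + 1)) := by
  refine Measurable.div_const ?_ _
  exact Measurable.ite (measurableSet_le (by fun_prop) (by fun_prop)) measurable_const (by fun_prop)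

lemma IsCoeff.int_wf (H : IsCoeff P ξ) (k j : ℕ) (u : ℂ) : Integrable (fun ω =>
    (if ‖ξ j ω‖ ^ 2 ≤ (k : ℝ) + 1 then 0 else (ξ j ω * u).re ^ 2) / ((k : ℝ) + 1)) P := by
  refine ((H.int_re_sq j u).div_const ((k : ℝ) + 1)).mono'
    ((measurable_wf k u).comp (H.meas j)).aestronglyMeasurable (ae_of_all _ fun ω => ?_)
  rw [Real.norm_eq_abs, abs_of_nonneg (by split_ifs <;> positivity)]
  gcongr
  split_ifs
  · positivity
  · exact le_rfl

lemma IsCoeff.int_tf (H : IsCoeff P ξ) (k : ℕ) : Integrable (fun ω =>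
    (if ‖ξ 0 ω‖ ^ 2 ≤ (k : ℝ) + 1 then 0 else ‖ξ 0 ω‖ ^ 2) / ((k : ℝ) + 1)) P := by
  refine (H.sq_int.div_const ((k : ℝ) + 1)).mono'
    ((measurable_tf k).comp (H.meas 0)).aestronglyMeasurable (ae_of_all _ fun ω => ?_)
  rw [Real.norm_eq_abs, abs_of_nonneg (by split_ifs <;> positivity)]
  gcongr
  split_ifs
  · positivity
  · exact le_rfl

lemma ww_nonneg (k : ℕ) (u : ℂ) : 0 ≤ ww P ξ k u :=
  integral_nonneg fun ω => by simp only [Pi.zero_apply]; split_ifs <;> positivity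

lemma tl_nonneg (k : ℕ) : 0 ≤ tl P ξ k :=
  integral_nonneg fun ω => by simp only [Pi.zero_apply]; split_ifs <;> positivity

lemma IsCoeff.ww_le_tl (H : IsCoeff P ξ) (k : ℕ) (u : ℂ) (hu : ‖u‖ ≤ 1) : ww P ξ k u ≤ tl P ξ k := by
  refine integral_mono (H.int_wf k 0 u) (H.int_tf k) fun ω => ?_
  simp only
  gcongr
  split_ifs
  · exact le_rfl
  · rw [← sq_abs]
    gcongr
    calc |(ξ 0 ω * u).re| ≤ ‖ξ 0 ω * u‖ := Complex.abs_re_le_norm _
      _ = ‖ξ 0 ω‖ * ‖u‖ := norm_mul _ _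
      _ ≤ ‖ξ 0 ω‖ * 1 := by gcongr
      _ = ‖ξ 0 ω‖ := mul_one _

lemma exp_cubic (γ y : ℝ) (hy : |y| ≤ 1) :
    |Real.exp (γ * y) - (1 + γ * y + γ ^ 2 / 2 * y ^ 2)| ≤ |γ| ^ 3 * Real.exp |γ| * |y| ^ 3 := by
  have h := Complex.norm_exp_sub_sum_le_norm_mul_exp ((γ * y : ℝ) : ℂ) 3
  have h1 : Complex.exp ((γ * y : ℝ) : ℂ) -
      ∑ m ∈ Finset.range 3, ((γ * y : ℝ) : ℂ) ^ m / (m.factorial : ℂ)
      = ((Real.exp (γ * y) - (1 + γ * y + (γ * y) ^ 2 / 2) : ℝ) : ℂ) := by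
    simp [Finset.sum_range_succ, Nat.factorial]
  rw [h1, Complex.norm_real, Complex.norm_real, Real.norm_eq_abs, Real.norm_eq_abs] at h
  have h3 : |γ * y| ^ 3 * Real.exp |γ * y| ≤ |γ| ^ 3 * Real.exp |γ| * |y| ^ 3 := by
    have h4 : |γ * y| ≤ |γ| := by
      rw [abs_mul]
      exact mul_le_of_le_one_right (abs_nonneg _) hy
    have h5 : Real.exp |γ * y| ≤ Real.exp |γ| := Real.exp_le_exp.mpr h4
    calc |γ * y| ^ 3 * Real.exp |γ * y| ≤ |γ * y| ^ 3 * Real.exp |γ| := by gcongr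
      _ = |γ| ^ 3 * Real.exp |γ| * |y| ^ 3 := by rw [abs_mul]; ring
  have e : 1 + γ * y + γ ^ 2 / 2 * y ^ 2 = 1 + γ * y + (γ * y) ^ 2 / 2 := by ring
  rw [e]
  exact h.trans h3

lemma IsCoeff.meas_yy (H : IsCoeff P ξ) (k : ℕ) (u : ℂ) :
    Measurable fun ω => yy k (tr k (ξ k ω)) u :=
  (measurable_yy k).comp (((measurable_tr k).comp (H.meas k)).prodMk measurable_const)

lemma IsCoeff.int_exp (H : IsCoeff P ξ) (k : ℕ) (u : ℂ) (hu : ‖u‖ ≤ 1) (γ : ℝ) :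
    Integrable (fun ω => Real.exp (γ * yy k (tr k (ξ k ω)) u)) P := by
  refine Integrable.of_bound ((H.meas_yy k u).const_mul γ).exp.aestronglyMeasurable
    (Real.exp |γ|) (ae_of_all _ fun ω => ?_)
  rw [Real.norm_eq_abs, Real.abs_exp]
  apply Real.exp_le_exp.mpr
  calc γ * yy k (tr k (ξ k ω)) u ≤ |γ * yy k (tr k (ξ k ω)) u| := le_abs_self _
    _ = |γ| * |yy k (tr k (ξ k ω)) u| := abs_mul _ _
    _ ≤ |γ| * 1 := by gcongr; exact abs_yy_tr_le k _ u hu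
    _ = |γ| := mul_one _

theorem IsCoeff.lap_two (H : IsCoeff P ξ) (k : ℕ) (u : ℂ) (hu : ‖u‖ ≤ 1) (γ : ℝ) :
    |∫ ω, Real.exp (γ * yy k (tr k (ξ k ω)) u) ∂P -
      (1 + γ ^ 2 / 2 * (QF (sig P ξ) u / ((k : ℝ) + 1) - ww P ξ k u))| ≤ dl P ξ γ k := by
  set y : Ω → ℝ := fun ω => yy k (tr k (ξ k ω)) u with hy
  have hymeas : Measurable y := H.meas_yy k u
  have hyb : ∀ ω, |y ω| ≤ 1 := fun ω => abs_yy_tr_le k _ u hu
  have hyint : Integrable y P :=
    Integrable.of_bound hymeas.aestronglyMeasurable 1 (ae_of_all _ fun ω => by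
      rw [Real.norm_eq_abs]; exact hyb ω)
  have hy2int : Integrable (fun ω => y ω ^ 2) P :=
    Integrable.of_bound (hymeas.pow_const 2).aestronglyMeasurable 1 (ae_of_all _ fun ω => by
      rw [norm_pow, Real.norm_eq_abs]; exact pow_le_one₀ (abs_nonneg _) (hyb ω))
  have hy3int : Integrable (fun ω => |y ω| ^ 3) P :=
    Integrable.of_bound (hymeas.abs.pow_const 3).aestronglyMeasurable 1 (ae_of_all _ fun ω => by
      rw [norm_pow, Real.norm_eq_abs, abs_abs]; exact pow_le_one₀ (abs_nonneg _) (hyb ω))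
  have hξint : Integrable (ξ k) P := (H.memLp k).integrable (by norm_num)
  have hxint : Integrable (fun ω => yy k (ξ k ω) u) P :=
    ((hξint.mul_const u).re).div_const _
  have hx0 : ∫ ω, yy k (ξ k ω) u ∂P = 0 := by
    unfold yy
    rw [integral_div]
    have h1 : ∫ ω, (ξ k ω * u).re ∂P = (∫ ω, ξ k ω * u ∂P).re := by
      have := integral_re (hξint.mul_const u)
      simpa using this
    rw [h1, integral_mul_const, H.mean' k]
    simp
  have hlow : ∀ ω, |yy k (ξ k ω) u - y ω| ≤ low k ‖ξ k ω‖ := by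
    intro ω
    simp only [hy, tr, low]
    split_ifs with h
    · simp
    · have : yy k 0 u = 0 := by simp [yy]
      rw [this, sub_zero]
      exact abs_yy_le k _ u hu
  have hmeany : |γ * ∫ ω, y ω ∂P| ≤ |γ| * ∫ ω, low k ‖ξ k ω‖ ∂P := by
    have h1 : |∫ ω, y ω ∂P| ≤ ∫ ω, low k ‖ξ k ω‖ ∂P := by
      have h2 : ∫ ω, y ω ∂P = - ∫ ω, (yy k (ξ k ω) u - y ω) ∂P := by
        rw [integral_sub hxint hyint, hx0]; ring
      rw [h2, abs_neg]
      refine (abs_integral_le_integral_abs).trans ?_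
      exact integral_mono (hxint.sub hyint).abs (integrable_low P ξ H.meas H.memLp k k) hlow
    rw [abs_mul]; gcongr
  have hsq : ∫ ω, y ω ^ 2 ∂P = QF (sig P ξ) u / ((k : ℝ) + 1) - ww P ξ k u := by
    have h1 : ww P ξ k u = ∫ ω, (if ‖ξ k ω‖ ^ 2 ≤ (k : ℝ) + 1 then 0 else (ξ k ω * u).re ^ 2) /
        ((k : ℝ) + 1) ∂P :=
      (((H.ident k).comp (measurable_wf k u)).integral_eq).symm
    rw [h1, ← H.QF_eq k u, ← integral_div,
      ← integral_sub ((H.int_re_sq k u).div_const _) (H.int_wf k k u)]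
    congr 1
    funext ω
    simp only [hy, yy_sq, tr]
    split_ifs <;> simp
  have hcub : ∫ ω, |y ω| ^ 3 ∂P ≤ ∫ ω, high k ‖ξ k ω‖ ∂P := by
    apply integral_mono hy3int (integrable_high P ξ H.meas k k)
    intro ω
    simp only [hy, tr, high]
    split_ifs with h
    · exact pow_le_pow_left₀ (abs_nonneg _) (abs_yy_le k _ u hu) 3
    · simp [yy]
  have hpoly : Integrable (fun ω => 1 + γ * y ω + γ ^ 2 / 2 * y ω ^ 2) P :=
    ((integrable_const 1).add (hyint.const_mul γ)).add (hy2int.const_mul (γ ^ 2 / 2))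
  have h2 : ∫ ω, (1 + γ * y ω + γ ^ 2 / 2 * y ω ^ 2) ∂P
      = 1 + γ * ∫ ω, y ω ∂P + γ ^ 2 / 2 * ∫ ω, y ω ^ 2 ∂P := by
    rw [integral_add (f := fun ω => 1 + γ * y ω) (g := fun ω => γ ^ 2 / 2 * y ω ^ 2)
        ((integrable_const 1).add (hyint.const_mul γ)) (hy2int.const_mul (γ ^ 2 / 2)),
      integral_add (f := fun _ => 1) (g := fun ω => γ * y ω)
        (integrable_const 1) (hyint.const_mul γ)]
    simp [integral_const_mul]
  have h3 : |∫ ω, Real.exp (γ * y ω) ∂P - ∫ ω, (1 + γ * y ω + γ ^ 2 / 2 * y ω ^ 2) ∂P| ≤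
      |γ| ^ 3 * Real.exp |γ| * ∫ ω, high k ‖ξ k ω‖ ∂P := by
    rw [← integral_sub (H.int_exp k u hu γ) hpoly]
    refine (abs_integral_le_integral_abs).trans ?_
    refine le_trans (integral_mono ((H.int_exp k u hu γ).sub hpoly).abs
      (hy3int.const_mul (|γ| ^ 3 * Real.exp |γ|)) fun ω => exp_cubic γ (y ω) (hyb ω)) ?_
    rw [integral_const_mul]
    gcongr
  rw [h2, hsq] at h3
  unfold dl
  rw [abs_le] at h3 hmeany ⊢
  constructor <;> linarith [h3.1, h3.2, hmeany.1, hmeany.2]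

/-- one factor: upper bound -/
lemma IsCoeff.lap_upper (H : IsCoeff P ξ) (k : ℕ) (u : ℂ) (hu : ‖u‖ ≤ 1) (γ : ℝ) :
    ∫⁻ ω, ENNReal.ofReal (Real.exp (γ * yy k (tr k (ξ k ω)) u)) ∂P ≤
      ENNReal.ofReal (Real.exp (γ ^ 2 / 2 * (QF (sig P ξ) u / ((k : ℝ) + 1) - ww P ξ k u) +
        dl P ξ γ k)) := by
  rw [← ofReal_integral_eq_lintegral_ofReal (H.int_exp k u hu γ)
    (ae_of_all _ fun ω => (Real.exp_pos _).le)]
  apply ENNReal.ofReal_le_ofReal
  refine le_trans ?_ (Real.add_one_le_exp _)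
  linarith [(abs_le.1 (H.lap_two k u hu γ)).2]

/-- the summable error in the lower bound -/
noncomputable def ee (P : Measure Ω) (ξ : ℕ → Ω → ℂ) (γ : ℝ) (k : ℕ) : ℝ :=
  (2 + 2 * |γ| + γ ^ 2) * (γ ^ 4 / ((k : ℝ) + 1) ^ 2 + γ ^ 2 / 2 * tl P ξ k + dl P ξ γ k)

/-- one factor: lower bound -/
lemma IsCoeff.lap_lower (H : IsCoeff P ξ) (k : ℕ) (u : ℂ) (hu : ‖u‖ ≤ 1) (γ : ℝ) :
    ENNReal.ofReal (Real.exp (γ ^ 2 / 2 * (QF (sig P ξ) u / ((k : ℝ) + 1)) - ee P ξ γ k)) ≤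
    ∫⁻ ω, ENNReal.ofReal (Real.exp (γ * yy k (tr k (ξ k ω)) u)) ∂P := by
  rw [← ofReal_integral_eq_lintegral_ofReal (H.int_exp k u hu γ)
    (ae_of_all _ fun ω => (Real.exp_pos _).le)]
  apply ENNReal.ofReal_le_ofReal
  set a := γ ^ 2 / 2 * (QF (sig P ξ) u / ((k : ℝ) + 1)) with ha
  set e := γ ^ 4 / ((k : ℝ) + 1) ^ 2 + γ ^ 2 / 2 * tl P ξ k + dl P ξ γ k with he
  have hk : (1 : ℝ) ≤ (k : ℝ) + 1 := by linarith [(Nat.cast_nonneg k : (0 : ℝ) ≤ k)]
  have hQ0 := H.QF_nonneg u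
  have hQ1 : QF (sig P ξ) u ≤ 1 :=
    (QF_le H.norm_sig u).trans (pow_le_one₀ (norm_nonneg _) hu)
  have ha0 : 0 ≤ a := by positivity
  have ha1 : a ≤ γ ^ 2 / 2 * (1 / ((k : ℝ) + 1)) := by rw [ha]; gcongr
  have ha2 : a ≤ γ ^ 2 / 2 := by
    refine ha1.trans ?_
    have : 1 / ((k : ℝ) + 1) ≤ 1 := by rw [div_le_one (by positivity)]; exact hk
    nlinarith [sq_nonneg γ]
  have ha3 : a ^ 2 ≤ γ ^ 4 / ((k : ℝ) + 1) ^ 2 := by
    calc a ^ 2 ≤ (γ ^ 2 / 2 * (1 / ((k : ℝ) + 1))) ^ 2 := by gcongr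
      _ = γ ^ 4 / ((k : ℝ) + 1) ^ 2 / 4 := by field_simp; ring
      _ ≤ γ ^ 4 / ((k : ℝ) + 1) ^ 2 := div_le_self (by positivity) (by norm_num)
  have htl := tl_nonneg (P := P) (ξ := ξ) k
  have hdl := dl_nonneg P ξ γ k
  have he0 : 0 ≤ e := by positivity
  have hee : ee P ξ γ k = (2 + 2 * |γ| + γ ^ 2) * e := rfl
  rw [hee]
  by_cases hle : e ≤ 1 / 2
  · have h1 := (abs_le.1 (H.lap_two k u hu γ)).1
    have h2 := H.ww_le_tl k u hu
    have h3 : 1 + a - (γ ^ 2 / 2 * tl P ξ k + dl P ξ γ k) ≤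
        ∫ ω, Real.exp (γ * yy k (tr k (ξ k ω)) u) ∂P := by
      have : γ ^ 2 / 2 * ww P ξ k u ≤ γ ^ 2 / 2 * tl P ξ k := by gcongr
      rw [mul_sub] at h1
      linarith
    refine le_trans ?_ h3
    set f := γ ^ 2 / 2 * tl P ξ k + dl P ξ γ k with hf
    have hf0 : 0 ≤ f := by positivity
    have hfe : a ^ 2 + f ≤ e := by rw [he]; linarith
    -- exp (a - 2 e) ≤ 1 + a - f
    have h4 : Real.exp (a - (2 + 2 * |γ| + γ ^ 2) * e) ≤ Real.exp a * Real.exp (-(2 * e)) := by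
      rw [← Real.exp_add]
      apply Real.exp_le_exp.2
      nlinarith [abs_nonneg γ, sq_nonneg γ]
    refine h4.trans ?_
    have h5 : Real.exp (-(2 * e)) ≤ 1 - e := by
      rw [Real.exp_neg, inv_le_comm₀ (Real.exp_pos _) (by linarith)]
      refine le_trans ?_ (Real.add_one_le_exp _)
      rw [inv_le_iff_one_le_mul₀ (by linarith)]
      nlinarith
    have ha4 : a < 1 := by nlinarith
    have h6 : Real.exp a * (1 - a) ≤ 1 := by
      have := Real.add_one_le_exp (-a)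
      rw [Real.exp_neg] at this
      have h7 := Real.exp_pos a
      calc Real.exp a * (1 - a) ≤ Real.exp a * (Real.exp a)⁻¹ := by gcongr; linarith
        _ = 1 := mul_inv_cancel₀ h7.ne'
    have h8 : 1 - e ≤ (1 + a - f) * (1 - a) := by nlinarith
    have h9 : 0 ≤ 1 + a - f := by nlinarith
    calc Real.exp a * Real.exp (-(2 * e)) ≤ Real.exp a * ((1 + a - f) * (1 - a)) := by
          gcongr; exact h5.trans h8
      _ = (1 + a - f) * (Real.exp a * (1 - a)) := by ring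
      _ ≤ (1 + a - f) * 1 := by gcongr
      _ = 1 + a - f := mul_one _
  · push Not at hle
    have h1 : Real.exp (-|γ|) ≤ ∫ ω, Real.exp (γ * yy k (tr k (ξ k ω)) u) ∂P := by
      have h2 : ∫ _ω, Real.exp (-|γ|) ∂P = Real.exp (-|γ|) := by simp
      rw [← h2]
      refine integral_mono (integrable_const _) (H.int_exp k u hu γ) fun ω => ?_
      apply Real.exp_le_exp.2
      have h3 : |γ * yy k (tr k (ξ k ω)) u| ≤ |γ| := by
        rw [abs_mul]
        exact mul_le_of_le_one_right (abs_nonneg _) (abs_yy_tr_le k _ u hu)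
      exact (abs_le.1 h3).1
    refine le_trans ?_ h1
    apply Real.exp_le_exp.2
    have h4 : (2 + 2 * |γ| + γ ^ 2) * (1 / 2) ≤ (2 + 2 * |γ| + γ ^ 2) * e :=
      mul_le_mul_of_nonneg_left hle.le (by positivity)
    clear_value a e
    linarith

lemma IsCoeff.lap_prod_eq (H : IsCoeff P ξ) (s : Finset ℕ) (u : ℕ → ℂ) (γ : ℝ) :
    ∫⁻ ω, ENNReal.ofReal (Real.exp (∑ k ∈ s, γ * yy k (tr k (ξ k ω)) (u k))) ∂P =
      ∏ k ∈ s, ∫⁻ ω, ENNReal.ofReal (Real.exp (γ * yy k (tr k (ξ k ω)) (u k))) ∂P := by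
  have hg : ∀ k, Measurable (fun c : ℂ => ENNReal.ofReal (Real.exp (γ * yy k (tr k c) (u k)))) := by
    intro k
    have h1 : Measurable (fun c : ℂ => yy k (tr k c) (u k)) :=
      measurable_yy_comp k (measurable_tr k) measurable_const
    exact (h1.const_mul γ).exp.ennreal_ofReal
  have h2 := lintegral_prod_eq_prod_lintegral_of_indepFun s _ (H.indep.comp _ hg)
    (fun k => (hg k).comp (H.meas k))
  simp only [Function.comp_apply] at h2
  rw [← h2]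
  congr 1
  funext ω
  rw [Real.exp_sum, ENNReal.ofReal_prod_of_nonneg (fun k _ => (Real.exp_pos _).le)]

/-- total of the summable corrections -/
noncomputable def DD (P : Measure Ω) (ξ : ℕ → Ω → ℂ) (γ : ℝ) : ℝ := ∑' k, dl P ξ γ k

lemma IsCoeff.sum_dl_le (H : IsCoeff P ξ) (s : Finset ℕ) (γ : ℝ) :
    ∑ k ∈ s, dl P ξ γ k ≤ DD P ξ γ :=
  (summable_dl P ξ H.meas H.memLp γ H.ident).sum_le_tsum s fun k _ => dl_nonneg P ξ γ k

lemma IsCoeff.lap_prod_upper (H : IsCoeff P ξ) (s : Finset ℕ) (u : ℕ → ℂ) (hu : ∀ k, ‖u k‖ ≤ 1)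
    (γ : ℝ) :
    ∫⁻ ω, ENNReal.ofReal (Real.exp (∑ k ∈ s, γ * yy k (tr k (ξ k ω)) (u k))) ∂P ≤
      ENNReal.ofReal (Real.exp (γ ^ 2 / 2 * ∑ k ∈ s,
        (QF (sig P ξ) (u k) / ((k : ℝ) + 1) - ww P ξ k (u k)) + DD P ξ γ)) := by
  rw [H.lap_prod_eq]
  refine (Finset.prod_le_prod' fun k _ => H.lap_upper k (u k) (hu k) γ).trans ?_
  rw [← ENNReal.ofReal_prod_of_nonneg (fun k _ => (Real.exp_pos _).le), ← Real.exp_sum]
  apply ENNReal.ofReal_le_ofReal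
  apply Real.exp_le_exp.2
  rw [Finset.sum_add_distrib, ← Finset.mul_sum]
  linarith [H.sum_dl_le s γ]

lemma IsCoeff.lap_prod_lower (H : IsCoeff P ξ) (s : Finset ℕ) (u : ℕ → ℂ) (hu : ∀ k, ‖u k‖ ≤ 1)
    (γ : ℝ) (hsum : Summable (tl P ξ)) :
    ENNReal.ofReal (Real.exp (γ ^ 2 / 2 * ∑ k ∈ s,
        (QF (sig P ξ) (u k) / ((k : ℝ) + 1)) - ∑' k, ee P ξ γ k)) ≤
    ∫⁻ ω, ENNReal.ofReal (Real.exp (∑ k ∈ s, γ * yy k (tr k (ξ k ω)) (u k))) ∂P := by
  rw [H.lap_prod_eq]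
  refine le_trans ?_ (Finset.prod_le_prod' fun k _ => H.lap_lower k (u k) (hu k) γ)
  rw [← ENNReal.ofReal_prod_of_nonneg (fun k _ => (Real.exp_pos _).le), ← Real.exp_sum]
  apply ENNReal.ofReal_le_ofReal
  apply Real.exp_le_exp.2
  rw [Finset.sum_sub_distrib, ← Finset.mul_sum]
  have hs : Summable (ee P ξ γ) := by
    unfold ee
    refine Summable.mul_left _ (Summable.add (Summable.add ?_ (hsum.mul_left _))
      (summable_dl P ξ H.meas H.memLp γ H.ident))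
    have h1 : Summable (fun k : ℕ => 1 / ((k : ℝ) + 1) ^ 2) := by
      have := (summable_nat_add_iff 1).2 (Real.summable_one_div_nat_pow.2 (show 1 < 2 by norm_num))
      simpa using this
    have := h1.mul_left (γ ^ 4)
    simpa [div_eq_mul_inv] using this
  have : ∑ k ∈ s, ee P ξ γ k ≤ ∑' k, ee P ξ γ k := by
    refine hs.sum_le_tsum s fun k _ => ?_
    unfold ee
    have := tl_nonneg (P := P) (ξ := ξ) k
    have := dl_nonneg P ξ γ k
    positivity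
  linarith

end Pool.Agent.H403Z.MC
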