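import Pool.Agent.H403Z.MC.Lap

/-!
Moment bounds for the truncated chaos measures of small arcs.
-/

open MeasureTheory ProbabilityTheory Filter Topology Set Metric
open scoped ENNReal NNReal Real
open Pool.Agent.Results.MP_ab74d4_pr.ChaosConvergence

set_option linter.unusedSectionVars false

namespace Pool.Agent.H403Z.MC

variable {Ω : Type*} {mΩ : MeasurableSpace Ω} {P : Measure Ω} [IsProbabilityMeasure P]
  {ξ : ℕ → Ω → ℂ}

/-- logarithm of one truncated factor -/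
noncomputable def gg (σ : ℂ) (γ : ℝ) (k : ℕ) (c : ℂ) (z : S1) : ℝ :=
  γ * yy k (tr k c) ((z : ℂ) ^ (k + 1)) - γ ^ 2 / 2 * (QF σ ((z : ℂ) ^ (k + 1)) / ((k : ℝ) + 1))

/-- the truncated density -/
noncomputable def TT (P : Measure Ω) (ξ : ℕ → Ω → ℂ) (γ : ℝ) (s : Finset ℕ) (ω : Ω) (z : S1) : ℝ :=
  Real.exp (∑ k ∈ s, gg (sig P ξ) γ k (ξ k ω) z)

/-- the truncated measure of a set -/
noncomputable def nu (P : Measure Ω) (ξ : ℕ → Ω → ℂ) (γ : ℝ) (s : Finset ℕ) (U : Set S1)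
    (ω : Ω) : ℝ≥0∞ :=
  ∫⁻ z in U, ENNReal.ofReal (TT P ξ γ s ω z) ∂arcLength

lemma measurable_QF (σ : ℂ) : Measurable (QF σ) := by
  unfold QF
  have : Continuous fun u : ℂ => (‖u‖ ^ 2 + (σ * u ^ 2).re) / 2 := by fun_prop
  exact this.measurable

lemma measurable_gg_comp {α : Type*} {mα : MeasurableSpace α} (σ : ℂ) (γ : ℝ) (k : ℕ)
    {f : α → ℂ} {h : α → S1} (hf : Measurable f) (hh : Measurable h) :
    Measurable fun a => gg σ γ k (f a) (h a) := by
  unfold gg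
  have h1 : Measurable fun a => ((h a : ℂ)) ^ (k + 1) :=
    (measurable_subtype_coe.comp hh).pow_const _
  exact ((measurable_yy_comp k ((measurable_tr k).comp hf) h1).const_mul γ).sub
    ((((measurable_QF σ).comp h1).div_const _).const_mul _)

lemma measurable_TT_comp {α : Type*} {mα : MeasurableSpace α} (γ : ℝ) (s : Finset ℕ)
    {g : α → Ω} {h : α → S1} (hg : ∀ k ∈ s, Measurable fun a => ξ k (g a)) (hh : Measurable h) :
    Measurable fun a => TT P ξ γ s (g a) (h a) := by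
  unfold TT
  exact (Finset.measurable_sum s fun k hk => measurable_gg_comp _ γ k (hg k hk) hh).exp

lemma TT_pos (γ : ℝ) (s : Finset ℕ) (ω : Ω) (z : S1) : 0 < TT P ξ γ s ω z := Real.exp_pos _

lemma measurable_nu {m : MeasurableSpace Ω} (γ : ℝ) (s : Finset ℕ) (U : Set S1)
    (hm : ∀ k ∈ s, Measurable[m] (ξ k)) : Measurable[m] (nu P ξ γ s U) := by
  unfold nu
  have h1 : Measurable[m.prod inferInstance] fun a : Ω × S1 =>
      ENNReal.ofReal (TT P ξ γ s a.1 a.2) :=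
    (measurable_TT_comp (P := P) (ξ := ξ) (mα := m.prod inferInstance) γ s
      (g := fun a : Ω × S1 => a.1) (h := fun a : Ω × S1 => a.2)
      (fun k hk => (hm k hk).comp (@measurable_fst Ω S1 m _))
      (@measurable_snd Ω S1 m _)).ennreal_ofReal
  exact @Measurable.lintegral_prod_right' Ω S1 m _ (arcLength.restrict U) _ _ h1

lemma TT_range (γ : ℝ) (n : ℕ) (ω : Ω) (z : S1) : TT P ξ γ (Finset.range n) ω z =
    Real.exp (γ * ∑ k ∈ Finset.range n, yy k (tr k (ξ k ω)) ((z : ℂ) ^ (k + 1)) -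
      γ ^ 2 / 2 * VV (sig P ξ) n z) := by
  unfold TT gg VV
  rw [Finset.sum_sub_distrib, Finset.mul_sum, Finset.mul_sum]

lemma norm_pow_S1 (z : S1) (k : ℕ) : ‖(z : ℂ) ^ k‖ = 1 := by rw [norm_pow, norm_S1, one_pow]

lemma IsCoeff.one_point (H : IsCoeff P ξ) (γ p : ℝ) (N : ℕ) (z0 : S1) :
    ∫⁻ ω, ENNReal.ofReal (TT P ξ γ (Finset.range N) ω z0 ^ p) ∂P ≤
      ENNReal.ofReal (Real.exp (γ ^ 2 / 2 * ((p ^ 2 - p) * VV (sig P ξ) N z0) + DD P ξ (p * γ))) := by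
  have h1 : ∀ ω, ENNReal.ofReal (TT P ξ γ (Finset.range N) ω z0 ^ p) =
      ENNReal.ofReal (Real.exp (∑ k ∈ Finset.range N,
        (p * γ) * yy k (tr k (ξ k ω)) ((z0 : ℂ) ^ (k + 1)))) *
      ENNReal.ofReal (Real.exp (-(γ ^ 2 / 2 * (p * VV (sig P ξ) N z0)))) := by
    intro ω
    rw [← ENNReal.ofReal_mul (Real.exp_pos _).le, ← Real.exp_add, TT_range, ← Real.exp_mul,
      ← Finset.mul_sum]
    congr 2
    ring
  simp only [h1]
  rw [lintegral_mul_const' _ _ ENNReal.ofReal_ne_top]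
  refine (mul_le_mul_left (H.lap_prod_upper (Finset.range N) (fun k => (z0 : ℂ) ^ (k + 1))
    (fun k => (norm_pow_S1 z0 _).le) (p * γ)) _).trans ?_
  rw [← ENNReal.ofReal_mul (Real.exp_pos _).le, ← Real.exp_add]
  apply ENNReal.ofReal_le_ofReal
  apply Real.exp_le_exp.2
  have h2 : ∑ k ∈ Finset.range N, (QF (sig P ξ) ((z0 : ℂ) ^ (k + 1)) / ((k : ℝ) + 1) -
      ww P ξ k ((z0 : ℂ) ^ (k + 1))) ≤ VV (sig P ξ) N z0 := by
    unfold VV
    exact Finset.sum_le_sum fun k _ => by linarith [ww_nonneg (P := P) (ξ := ξ) k ((z0 : ℂ) ^ (k + 1))]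
  have h3 := mul_le_mul_of_nonneg_left h2 (show 0 ≤ (p * γ) ^ 2 / 2 by positivity)
  nlinarith

lemma IsCoeff.two_point (H : IsCoeff P ξ) (γ : ℝ) {p : ℝ} (hp0 : 0 ≤ p) (hp2 : p ≤ 2) {N n : ℕ}
    (hn : N ≤ n) (z0 z w : S1) :
    ∫⁻ ω, ENNReal.ofReal (TT P ξ γ (Finset.range N) ω z0 ^ (p - 2) *
      TT P ξ γ (Finset.range n) ω z * TT P ξ γ (Finset.range n) ω w) ∂P ≤
      ENNReal.ofReal (Real.exp (γ ^ 2 / 2 *
        (∑ k ∈ Finset.range n, QF (sig P ξ) (aa p N z0 z w k) / ((k : ℝ) + 1) -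
        ((p - 2) * VV (sig P ξ) N z0 + VV (sig P ξ) n z + VV (sig P ξ) n w)) + DD P ξ (4 * γ))) := by
  have h1 : ∀ ω, ENNReal.ofReal (TT P ξ γ (Finset.range N) ω z0 ^ (p - 2) *
      TT P ξ γ (Finset.range n) ω z * TT P ξ γ (Finset.range n) ω w) =
      ENNReal.ofReal (Real.exp (∑ k ∈ Finset.range n,
        (4 * γ) * yy k (tr k (ξ k ω)) (((1 / 4 : ℝ) : ℂ) * aa p N z0 z w k))) *
      ENNReal.ofReal (Real.exp (-(γ ^ 2 / 2 *
        ((p - 2) * VV (sig P ξ) N z0 + VV (sig P ξ) n z + VV (sig P ξ) n w)))) := by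
    intro ω
    rw [← ENNReal.ofReal_mul (Real.exp_pos _).le, ← Real.exp_add, TT_range, TT_range, TT_range,
      ← Real.exp_mul, ← Real.exp_add, ← Real.exp_add]
    congr 2
    have h2 : ∀ k, (4 * γ) * yy k (tr k (ξ k ω)) (((1 / 4 : ℝ) : ℂ) * aa p N z0 z w k) =
        γ * (p - 2) * (if k < N then yy k (tr k (ξ k ω)) ((z0 : ℂ) ^ (k + 1)) else 0) +
        γ * yy k (tr k (ξ k ω)) ((z : ℂ) ^ (k + 1)) + γ * yy k (tr k (ξ k ω)) ((w : ℂ) ^ (k + 1)) := by
      intro k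
      rw [yy_smul]
      unfold aa
      rw [yy_add, yy_add]
      split_ifs
      · rw [yy_smul]; ring
      · have : yy k (tr k (ξ k ω)) 0 = 0 := by simp [yy]
        rw [this]; ring
    simp only [h2]
    rw [Finset.sum_add_distrib, Finset.sum_add_distrib, ← Finset.mul_sum, ← Finset.mul_sum,
      ← Finset.mul_sum, ← Finset.sum_filter]
    have h3 : (Finset.range n).filter (fun k => k < N) = Finset.range N := by
      ext k; simp only [Finset.mem_filter, Finset.mem_range]; omega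
    rw [h3]
    ring
  simp only [h1]
  rw [lintegral_mul_const' _ _ ENNReal.ofReal_ne_top]
  refine (mul_le_mul_left (H.lap_prod_upper (Finset.range n)
    (fun k => ((1 / 4 : ℝ) : ℂ) * aa p N z0 z w k) (fun k => ?_) (4 * γ)) _).trans ?_
  · rw [norm_mul, Complex.norm_real, Real.norm_eq_abs, abs_of_pos (by norm_num : (0 : ℝ) < 1 / 4)]
    linarith [norm_aa_le hp0 hp2 N (norm_S1 z0) (norm_S1 z) (norm_S1 w) k]
  rw [← ENNReal.ofReal_mul (Real.exp_pos _).le, ← Real.exp_add]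
  apply ENNReal.ofReal_le_ofReal
  apply Real.exp_le_exp.2
  have h2 : ∑ k ∈ Finset.range n, (QF (sig P ξ) (((1 / 4 : ℝ) : ℂ) * aa p N z0 z w k) / ((k : ℝ) + 1) -
      ww P ξ k (((1 / 4 : ℝ) : ℂ) * aa p N z0 z w k)) ≤
      1 / 16 * ∑ k ∈ Finset.range n, QF (sig P ξ) (aa p N z0 z w k) / ((k : ℝ) + 1) := by
    rw [Finset.mul_sum]
    refine Finset.sum_le_sum fun k _ => ?_
    rw [QF_smul]
    have := ww_nonneg (P := P) (ξ := ξ) k (((1 / 4 : ℝ) : ℂ) * aa p N z0 z w k)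
    have e : (1 / 4 : ℝ) ^ 2 * QF (sig P ξ) (aa p N z0 z w k) / ((k : ℝ) + 1) =
        1 / 16 * (QF (sig P ξ) (aa p N z0 z w k) / ((k : ℝ) + 1)) := by ring
    linarith
  have h3 := mul_le_mul_of_nonneg_left h2 (show 0 ≤ (4 * γ) ^ 2 / 2 by positivity)
  nlinarith

/-- the dominating kernel -/
noncomputable def ker (β r : ℝ) (z w : S1) : ℝ≥0∞ :=
  ∑' i : ℕ, (ball z (r / 2 ^ i)).indicator (fun _ => ENNReal.ofReal (β ^ (i + 1))) w

lemma lintegral_ker {β : ℝ} (hβ0 : 0 ≤ β) (hβ : β < 2) :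
    ∃ S : ℝ≥0∞, S ≠ ⊤ ∧ ∀ (r : ℝ), 0 ≤ r → ∀ (z : S1) (U : Set S1),
      ∫⁻ w in U, ker β r z w ∂arcLength ≤ S * ENNReal.ofReal r := by
  refine ⟨∑' i : ℕ, ENNReal.ofReal (10 * β * (β / 2) ^ i), ?_, ?_⟩
  · rw [← ENNReal.ofReal_tsum_of_nonneg (fun i => by positivity)
      ((summable_geometric_of_lt_one (by positivity) (by linarith)).mul_left _)]
    exact ENNReal.ofReal_ne_top
  · intro r hr z U
    refine (setLIntegral_le_lintegral _ _).trans ?_
    unfold ker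
    rw [lintegral_tsum (fun i => (measurable_const.indicator measurableSet_ball).aemeasurable),
      ← ENNReal.tsum_mul_right]
    refine ENNReal.tsum_le_tsum fun i => ?_
    rw [lintegral_indicator_const measurableSet_ball]
    refine (mul_le_mul_right (arc_ball_le z _ (by positivity)) _).trans ?_
    rw [← ENNReal.ofReal_mul (by positivity), ← ENNReal.ofReal_mul (by positivity)]
    apply le_of_eq
    congr 1
    rw [div_pow, pow_succ]
    ring

lemma exp_VV_le {σ : ℂ} (hσ : ‖σ‖ ≤ 1) (γ : ℝ) {p : ℝ} (hp0 : 0 ≤ p) (hp2 : p ≤ 2) {η : ℝ}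
    (hη : 0 < η) {N : ℕ} (hN : 1 ≤ N) {z0 : S1} (h0η : η ≤ |(z0 : ℂ).im|) :
    Real.exp (γ ^ 2 / 2 * ((p ^ 2 - p) * VV σ N z0)) ≤
      Real.exp (γ ^ 2 * (1 / 2 + 1 / η)) * (N : ℝ) ^ (γ ^ 2 * (p ^ 2 - p) / 4) := by
  have hNpos : (0 : ℝ) < N := by exact_mod_cast hN
  rw [Real.rpow_def_of_pos hNpos, ← Real.exp_add]
  apply Real.exp_le_exp.2
  have h1 := VV_bound hσ N hN z0 (norm_S1 z0) η hη h0η
  have h2 : |p ^ 2 - p| ≤ 2 := by rw [abs_le]; constructor <;> nlinarith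
  have h3 : (p ^ 2 - p) * (VV σ N z0 - Real.log N / 2) ≤ 2 * (1 / 2 + 1 / η) := by
    refine (le_abs_self _).trans ?_
    rw [abs_mul]
    gcongr
  have h4 := mul_le_mul_of_nonneg_left h3 (show 0 ≤ γ ^ 2 / 2 by positivity)
  nlinarith

lemma IsCoeff.measF (H : IsCoeff P ξ) (γ p : ℝ) (N n : ℕ) (z0 : S1) {α : Type*}
    {mα : MeasurableSpace α} {g : α → Ω} {h1 h2 : α → S1} (hg : Measurable g)
    (hh1 : Measurable h1) (hh2 : Measurable h2) :
    Measurable fun a => ENNReal.ofReal (TT P ξ γ (Finset.range N) (g a) z0 ^ (p - 2) *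
      TT P ξ γ (Finset.range n) (g a) (h1 a) * TT P ξ γ (Finset.range n) (g a) (h2 a)) := by
  have a1 : Measurable fun a => TT P ξ γ (Finset.range N) (g a) z0 :=
    measurable_TT_comp (g := g) (h := fun _ => z0) γ _ (fun k _ => (H.meas k).comp hg)
      measurable_const
  have a2 : Measurable fun a => TT P ξ γ (Finset.range n) (g a) (h1 a) :=
    measurable_TT_comp (g := g) (h := h1) γ _ (fun k _ => (H.meas k).comp hg) hh1
  have a3 : Measurable fun a => TT P ξ γ (Finset.range n) (g a) (h2 a) :=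
    measurable_TT_comp (g := g) (h := h2) γ _ (fun k _ => (H.meas k).comp hg) hh2
  exact (((a1.pow_const (p - 2)).mul a2).mul a3).ennreal_ofReal

theorem IsCoeff.second_moment (H : IsCoeff P ξ) {γ : ℝ} (hγ : γ ^ 2 < 2) {p : ℝ} (hp0 : 0 ≤ p)
    (hp2 : p ≤ 2) {η : ℝ} (hη : 0 < η) :
    ∃ C : ℝ≥0∞, C ≠ ⊤ ∧ ∀ N : ℕ, 1 ≤ N → 3 / (N : ℝ) ≤ η / 2 → ∀ z0 : S1, η ≤ |(z0 : ℂ).im| →
      ∀ n, N ≤ n →
      ∫⁻ ω, ENNReal.ofReal (TT P ξ γ (Finset.range N) ω z0 ^ (p - 2)) *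
        nu P ξ γ (Finset.range n) (ball z0 (3 / N)) ω ^ 2 ∂P ≤
      C * ENNReal.ofReal ((N : ℝ) ^ (γ ^ 2 * (p ^ 2 - p) / 4 - 2)) := by
  set β : ℝ := Real.exp (γ ^ 2 / 2 * Real.log 2) with hβ
  have hβ2 : β < 2 := by
    have h1 : γ ^ 2 / 2 * Real.log 2 < Real.log 2 := by
      have := Real.log_pos (show (1 : ℝ) < 2 by norm_num)
      nlinarith
    have := Real.exp_lt_exp.2 h1
    rwa [Real.exp_log (by norm_num)] at this
  obtain ⟨S, hS, hSle⟩ := lintegral_ker (β := β) (Real.exp_pos _).le hβ2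
  set C1 : ℝ := Real.exp (γ ^ 2 * (1 / 2 + 1 / η)) *
    Real.exp (γ ^ 2 / 2 * (49 + 2 / η) + DD P ξ (4 * γ)) with hC1
  refine ⟨ENNReal.ofReal C1 * S * ENNReal.ofReal 180,
    ENNReal.mul_ne_top (ENNReal.mul_ne_top ENNReal.ofReal_ne_top hS) ENNReal.ofReal_ne_top, ?_⟩
  intro N hN hNη z0 h0η n hn
  have hNpos : (0 : ℝ) < N := by exact_mod_cast hN
  set U : Set S1 := ball z0 (3 / N) with hU
  set κ : ℝ := γ ^ 2 * (p ^ 2 - p) / 4 with hκ
  let F : Ω → S1 → S1 → ℝ≥0∞ := fun ω z w =>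
    ENNReal.ofReal (TT P ξ γ (Finset.range N) ω z0 ^ (p - 2) *
      TT P ξ γ (Finset.range n) ω z * TT P ξ γ (Finset.range n) ω w)
  have hTm : ∀ ω, Measurable fun z => ENNReal.ofReal (TT P ξ γ (Finset.range n) ω z) := fun ω =>
    (measurable_TT_comp (P := P) (ξ := ξ) (g := fun _ : S1 => ω) (h := fun z => z) γ
      (Finset.range n) (fun k _ => measurable_const) measurable_id).ennreal_ofReal
  have e1 : ∀ ω, ENNReal.ofReal (TT P ξ γ (Finset.range N) ω z0 ^ (p - 2)) *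
      nu P ξ γ (Finset.range n) U ω ^ 2 =
      ∫⁻ z in U, ∫⁻ w in U, F ω z w ∂arcLength ∂arcLength := by
    intro ω
    have h1 : ∀ z w, F ω z w = ENNReal.ofReal (TT P ξ γ (Finset.range N) ω z0 ^ (p - 2)) *
        ENNReal.ofReal (TT P ξ γ (Finset.range n) ω z) *
        ENNReal.ofReal (TT P ξ γ (Finset.range n) ω w) := by
      intro z w
      have a1 := TT_pos (P := P) (ξ := ξ) γ (Finset.range N) ω z0
      have a2 := TT_pos (P := P) (ξ := ξ) γ (Finset.range n) ω z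
      simp only [F]
      rw [ENNReal.ofReal_mul (by positivity), ENNReal.ofReal_mul (by positivity)]
    simp only [h1]
    have h2 : ∀ z, ∫⁻ w in U, ENNReal.ofReal (TT P ξ γ (Finset.range N) ω z0 ^ (p - 2)) *
        ENNReal.ofReal (TT P ξ γ (Finset.range n) ω z) *
        ENNReal.ofReal (TT P ξ γ (Finset.range n) ω w) ∂arcLength =
        ENNReal.ofReal (TT P ξ γ (Finset.range N) ω z0 ^ (p - 2)) *
        ENNReal.ofReal (TT P ξ γ (Finset.range n) ω z) * nu P ξ γ (Finset.range n) U ω := by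
      intro z
      rw [lintegral_const_mul _ (hTm ω)]
      rfl
    simp only [h2]
    rw [lintegral_mul_const _ ((hTm ω).const_mul _), lintegral_const_mul _ (hTm ω), sq, mul_assoc]
    rfl
  simp only [e1]
  rw [lintegral_lintegral_swap (by
    refine Measurable.aemeasurable ?_
    exact Measurable.lintegral_prod_right' (f := fun a : (Ω × S1) × S1 => F a.1.1 a.1.2 a.2)
      (H.measF γ p N n z0 (g := fun a : (Ω × S1) × S1 => a.1.1) (h1 := fun a => a.1.2) (h2 := fun a => a.2)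
        (measurable_fst.comp measurable_fst) (measurable_snd.comp measurable_fst)
        measurable_snd))]
  have e2 : ∀ z ∈ U, ∫⁻ ω, ∫⁻ w in U, F ω z w ∂arcLength ∂P ≤
      ENNReal.ofReal (C1 * (N : ℝ) ^ κ) * (S * ENNReal.ofReal (6 / N)) := by
    intro z hz
    rw [lintegral_lintegral_swap (by
      refine Measurable.aemeasurable ?_
      exact H.measF γ p N n z0 (g := fun a : Ω × S1 => a.1) (h1 := fun _ => z) (h2 := fun a => a.2)
        measurable_fst measurable_const measurable_snd)]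
    refine le_trans ?_ (mul_le_mul_right (hSle (6 / N) (by positivity) z U) _)
    rw [← lintegral_const_mul' _ _ ENNReal.ofReal_ne_top]
    refine lintegral_mono_ae ?_
    have hne : ∀ᵐ w ∂arcLength, w ≠ z := by
      rw [ae_iff]
      simpa using arc_singleton z
    filter_upwards [ae_restrict_mem measurableSet_ball, ae_restrict_of_ae hne] with w hw hwz
    refine (H.two_point γ hp0 hp2 hn z0 z w).trans ?_
    have hz' : ‖(z : ℂ) - z0‖ < 3 / N := by rw [← dist_eq_norm]; exact hz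
    have hw' : ‖(w : ℂ) - z0‖ < 3 / N := by rw [← dist_eq_norm]; exact hw
    obtain ⟨i, hi1, hi2⟩ := expo_bound H.norm_sig hp0 hp2 η hη N n hN hn hNη (norm_S1 z0)
      (norm_S1 z) (norm_S1 w) h0η hz' hw' (fun h => hwz (Subtype.ext h.symm))
    have h3 : ENNReal.ofReal (β ^ (i + 1)) ≤ ker β (6 / N) z w := by
      unfold ker
      refine le_trans ?_ (ENNReal.le_tsum i)
      rw [indicator_of_mem]
      rw [mem_ball, Subtype.dist_eq, dist_eq_norm]
      exact hi1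
    refine le_trans ?_ (mul_le_mul_right h3 _)
    rw [← ENNReal.ofReal_mul (by positivity)]
    apply ENNReal.ofReal_le_ofReal
    have h4 := exp_VV_le H.norm_sig γ hp0 hp2 hη hN h0η
    have h5 := mul_le_mul_of_nonneg_left hi2 (show 0 ≤ γ ^ 2 / 2 by positivity)
    calc _ ≤ Real.exp (γ ^ 2 / 2 * ((p ^ 2 - p) * VV (sig P ξ) N z0) +
          (γ ^ 2 / 2 * (49 + 2 / η) + DD P ξ (4 * γ)) +
          ((i + 1 : ℕ) : ℝ) * (γ ^ 2 / 2 * Real.log 2)) := by
          apply Real.exp_le_exp.2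
          push_cast
          linarith
      _ = Real.exp (γ ^ 2 / 2 * ((p ^ 2 - p) * VV (sig P ξ) N z0)) *
          Real.exp (γ ^ 2 / 2 * (49 + 2 / η) + DD P ξ (4 * γ)) * β ^ (i + 1) := by
          rw [Real.exp_add, Real.exp_add _ (γ ^ 2 / 2 * (49 + 2 / η) + DD P ξ (4 * γ)),
            Real.exp_nat_mul]
      _ ≤ (Real.exp (γ ^ 2 * (1 / 2 + 1 / η)) * (N : ℝ) ^ κ) *
          Real.exp (γ ^ 2 / 2 * (49 + 2 / η) + DD P ξ (4 * γ)) * β ^ (i + 1) := by gcongr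
      _ = C1 * (N : ℝ) ^ κ * β ^ (i + 1) := by rw [hC1]; ring
  refine (setLIntegral_mono' measurableSet_ball e2).trans ?_
  rw [setLIntegral_const]
  refine (mul_le_mul_right (arc_ball_le z0 _ (by positivity)) _).trans ?_
  apply le_of_eq
  have hC1pos : 0 ≤ C1 := by positivity
  have e3 : ENNReal.ofReal ((N : ℝ) ^ κ) * ENNReal.ofReal (6 / N) * ENNReal.ofReal (10 * (3 / N)) =
      ENNReal.ofReal 180 * ENNReal.ofReal ((N : ℝ) ^ (κ - 2)) := by
    rw [← ENNReal.ofReal_mul (by positivity), ← ENNReal.ofReal_mul (by positivity),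
      ← ENNReal.ofReal_mul (by positivity)]
    congr 1
    rw [Real.rpow_sub hNpos, Real.rpow_two]
    field_simp
    ring
  rw [ENNReal.ofReal_mul hC1pos]
  calc ENNReal.ofReal C1 * ENNReal.ofReal ((N : ℝ) ^ κ) * (S * ENNReal.ofReal (6 / N)) *
        ENNReal.ofReal (10 * (3 / N)) = ENNReal.ofReal C1 * S *
        (ENNReal.ofReal ((N : ℝ) ^ κ) * ENNReal.ofReal (6 / N) * ENNReal.ofReal (10 * (3 / N))) := by
        ring
    _ = _ := by rw [e3]; ring

theorem IsCoeff.moment (H : IsCoeff P ξ) {γ : ℝ} (hγ : γ ^ 2 < 2) {p : ℝ} (hp0 : 0 ≤ p)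
    (hp2 : p ≤ 2) {η : ℝ} (hη : 0 < η) :
    ∃ C : ℝ≥0∞, C ≠ ⊤ ∧ ∀ N : ℕ, 1 ≤ N → 3 / (N : ℝ) ≤ η / 2 → ∀ z0 : S1, η ≤ |(z0 : ℂ).im| →
      ∀ n, N ≤ n →
      ∫⁻ ω, nu P ξ γ (Finset.range n) (ball z0 (3 / N)) ω ^ p ∂P ≤
      C * ENNReal.ofReal ((N : ℝ) ^ (γ ^ 2 * (p ^ 2 - p) / 4 - p)) := by
  obtain ⟨C2, hC2, h2⟩ := H.second_moment hγ hp0 hp2 hη
  set C1 : ℝ := Real.exp (γ ^ 2 * (1 / 2 + 1 / η)) * Real.exp (DD P ξ (p * γ)) with hC1
  have hq0 : 0 ≤ 1 - p / 2 := by linarith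
  have hq1 : 0 ≤ p / 2 := by linarith
  refine ⟨ENNReal.ofReal C1 ^ (1 - p / 2) * C2 ^ (p / 2), ENNReal.mul_ne_top
    (ENNReal.rpow_ne_top_of_nonneg hq0 ENNReal.ofReal_ne_top)
    (ENNReal.rpow_ne_top_of_nonneg hq1 hC2), ?_⟩
  intro N hN hNη z0 h0η n hn
  have hNpos : (0 : ℝ) < N := by exact_mod_cast hN
  set κ : ℝ := γ ^ 2 * (p ^ 2 - p) / 4 with hκ
  have e1 : ∀ ω, nu P ξ γ (Finset.range n) (ball z0 (3 / N)) ω ^ p =
      ENNReal.ofReal (TT P ξ γ (Finset.range N) ω z0 ^ p) ^ (1 - p / 2) *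
      (ENNReal.ofReal (TT P ξ γ (Finset.range N) ω z0 ^ (p - 2)) *
        nu P ξ γ (Finset.range n) (ball z0 (3 / N)) ω ^ 2) ^ (p / 2) := by
    intro ω
    have a1 := TT_pos (P := P) (ξ := ξ) γ (Finset.range N) ω z0
    rw [← ENNReal.ofReal_rpow_of_pos a1, ← ENNReal.ofReal_rpow_of_pos a1,
      ENNReal.mul_rpow_of_nonneg _ _ hq1, ← ENNReal.rpow_mul, ← ENNReal.rpow_mul, ← mul_assoc,
      ← ENNReal.rpow_add _ _ (by simpa using a1) ENNReal.ofReal_ne_top,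
      show p * (1 - p / 2) + (p - 2) * (p / 2) = 0 by ring, ENNReal.rpow_zero, one_mul,
      ← ENNReal.rpow_natCast, ← ENNReal.rpow_mul]
    congr 1
    push_cast; ring
  simp only [e1]
  have m1 : Measurable fun ω => TT P ξ γ (Finset.range N) ω z0 :=
    measurable_TT_comp (g := fun ω => ω) (h := fun _ => z0) γ _ (fun k _ => H.meas k)
      measurable_const
  have m2 : Measurable (nu P ξ γ (Finset.range n) (ball z0 (3 / N))) :=
    measurable_nu γ _ _ fun k _ => H.meas k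
  refine (ENNReal.lintegral_mul_norm_pow_le (m1.pow_const p).ennreal_ofReal.aemeasurable
    ((m1.pow_const (p - 2)).ennreal_ofReal.mul (m2.pow_const 2)).aemeasurable hq0 hq1
    (by ring)).trans ?_
  have b1 : ∫⁻ ω, ENNReal.ofReal (TT P ξ γ (Finset.range N) ω z0 ^ p) ∂P ≤
      ENNReal.ofReal C1 * ENNReal.ofReal ((N : ℝ) ^ κ) := by
    refine (H.one_point γ p N z0).trans ?_
    rw [← ENNReal.ofReal_mul (by positivity)]
    apply ENNReal.ofReal_le_ofReal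
    rw [Real.exp_add]
    have h4 := exp_VV_le H.norm_sig γ hp0 hp2 hη hN h0η
    calc _ ≤ (Real.exp (γ ^ 2 * (1 / 2 + 1 / η)) * (N : ℝ) ^ κ) * Real.exp (DD P ξ (p * γ)) := by
          gcongr
      _ = _ := by rw [hC1]; ring
  have b2 := h2 N hN hNη z0 h0η n hn
  calc _ ≤ (ENNReal.ofReal C1 * ENNReal.ofReal ((N : ℝ) ^ κ)) ^ (1 - p / 2) *
        (C2 * ENNReal.ofReal ((N : ℝ) ^ (κ - 2))) ^ (p / 2) := by gcongr; exact b2
    _ = ENNReal.ofReal C1 ^ (1 - p / 2) * C2 ^ (p / 2) *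
        (ENNReal.ofReal ((N : ℝ) ^ κ) ^ (1 - p / 2) *
          ENNReal.ofReal ((N : ℝ) ^ (κ - 2)) ^ (p / 2)) := by
        rw [ENNReal.mul_rpow_of_nonneg _ _ hq0, ENNReal.mul_rpow_of_nonneg _ _ hq1]; ring
    _ = _ := by
        congr 1
        rw [ENNReal.ofReal_rpow_of_nonneg (by positivity) hq0,
          ENNReal.ofReal_rpow_of_nonneg (by positivity) hq1, ← ENNReal.ofReal_mul (by positivity),
          ← Real.rpow_mul hNpos.le, ← Real.rpow_mul hNpos.le, ← Real.rpow_add hNpos]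
        congr 2
        ring

end Pool.Agent.H403Z.MC
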